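import Pool.Agent.H80.S6C.Rate
import Pool.Agent.H40.S6.Ev

/-!
# The rate of the positions near a row, on events

At a row `P` at which the rate function has a derivative at most `3 - c`, the entropy of the rows
of the positions near `P`, given the earlier rows, is at most `3 - c` times the number of the rows,
up to a small multiple of the length of the neighbourhood. The same holds under the law conditioned
on a large event.
-/

set_option autoImplicit false

namespace Pool.S6C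

open Finset Real
open Pool.Agent.H49.Ent Pool.Agent.H32.Dense Pool.STK Pool.KA Pool.KSAT Pool.K2S Pool.PB Pool.KS6

/-- The rows of the positions are monotone. -/
theorem CH_X_mono {J : ℕ} (F : Fam 3 J) {q : F.Ω → ℝ} (hq : IsLaw q) {r r' : ℕ} (h : r ≤ r') :
    CH q (F.X r) F.W ≤ CH q (F.X r') F.W := by
  have h1 := CH_rows F hq h
  have h2 := CH_nonneg hq.nonneg (F.X r') (fun ω => (F.X r ω, F.W ω))
  linarith only [h1, h2]

/-- Events have positive probability in the class. -/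
theorem Cs.pos {S : PCl 3} {a R h₁ : ℝ} {i₀ : Fin 3} {c s₂ : ℝ} {r : ℝ → ℝ} {D : Set ℝ}
    {σ : ℝ → Row} (hC : Cs S a R h₁ i₀ c s₂ r D σ) :
    Clp S (fun _ F A => 0 < Pe F.p A) :=
  Clp.of one_pos 0 fun J _ F A hA => lt_of_lt_of_le (Real.exp_pos _) (hC.st 1 J F A hA).2.2.2

/-- **The rate on a neighbourhood of a row, on events.** -/
theorem rte {S : PCl 3} {a R h₁ : ℝ} {i₀ : Fin 3} {c s₂ : ℝ} {r : ℝ → ℝ} {D : Set ℝ}
    {σ : ℝ → Row} (hC : Cs S a R h₁ i₀ c s₂ r D σ) {P : ℝ} (hP0 : 0 < P) (hP1 : P < 1)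
    (hr : ∃ r' : ℝ, r' ≤ 3 - c ∧ HasDerivAt r r' P) {ϖ ε : ℝ} (hϖ : 0 < ϖ) (hε : 0 < ε) :
    ∃ X₀ : ℝ, 0 < X₀ ∧ ∀ X : ℝ, 0 < X → X ≤ X₀ → Clp S (fun J F A =>
      ∀ E : F.Ω → Prop, Sub E A → ϖ * Pe F.p A ≤ Pe F.p E → ∀ P₁ P₂ : ℕ, P₁ ≤ P₂ →
        |(P₁ : ℝ) - P * J| ≤ X * J → |(P₂ : ℝ) - P * J| ≤ X * J →
        CH (Pool.Agent.H49.Ent.cond F.p E True) (F.X P₂) (fun ω => (F.X P₁ ω, F.W ω)) ≤
          (3 - c) * ((P₂ : ℝ) - P₁) * Real.log 2 + ε * X * J) := by
  obtain ⟨r', hr', hd⟩ := hr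
  have hl2 : 0 < Real.log 2 := Real.log_pos (by norm_num)
  have hl2' : Real.log 2 < 1 := by
    have := Real.log_two_lt_d9
    linarith only [hP0, hP1, this]
  have hc0 := hC.c0
  obtain ⟨e, he⟩ : ∃ e, e = min ε 1 := ⟨_, rfl⟩
  have he0 : 0 < e := by rw [he]; exact lt_min hε one_pos
  have he1 : e ≤ 1 := by rw [he]; exact min_le_right _ _
  have heε : e ≤ ε := by rw [he]; exact min_le_left _ _
  -- the derivative
  have hd1 := hd.isLittleO.def (show (0 : ℝ) < e / 16 by linarith)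
  obtain ⟨δ, hδ, hd2⟩ := Metric.eventually_nhds_iff.1 hd1
  have hd3 : ∀ y : ℝ, |y - P| < δ → |r y - r P - r' * (y - P)| ≤ e / 16 * |y - P| := by
    intro y hy
    have := hd2 (show dist y P < δ by rw [Real.dist_eq]; exact hy)
    simpa [Real.norm_eq_abs, smul_eq_mul, mul_comm] using this
  obtain ⟨X₀, hX₀⟩ : ∃ X₀, X₀ = min (δ / 4) (min (P / 4) ((1 - P) / 4)) := ⟨_, rfl⟩
  have hX₀p : 0 < X₀ := by
    rw [hX₀]
    exact lt_min (by linarith only [hδ]) (lt_min (by linarith) (by linarith))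
  have hXδ : X₀ ≤ δ / 4 := by rw [hX₀]; exact min_le_left _ _
  have hXP : X₀ ≤ P / 4 := by rw [hX₀]; exact (min_le_right _ _).trans (min_le_left _ _)
  have hXP' : X₀ ≤ (1 - P) / 4 := by rw [hX₀]; exact (min_le_right _ _).trans (min_le_right _ _)
  refine ⟨X₀, hX₀p, fun X hX hXX => ?_⟩
  -- the grid
  obtain ⟨m, hm⟩ : ∃ m, m = e * X / 24 := ⟨_, rfl⟩
  have hm0 : 0 < m := by rw [hm]; positivity
  have hmX : m ≤ X / 2 := by
    have h1 : e * X ≤ 1 * X := mul_le_mul_of_nonneg_right he1 hX.le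
    rw [hm]
    linarith only [hX, h1]
  obtain ⟨n, hn⟩ : ∃ n : ℕ, n = ⌊3 * X / m⌋₊ + 3 := ⟨_, rfl⟩
  obtain ⟨y, hy⟩ : ∃ y : ℕ → ℝ, y = fun i : ℕ => P - 2 * X + (i : ℝ) * m := ⟨_, rfl⟩
  have hyr : ∀ i < n, |y i - P| ≤ 2 * X := by
    intro i hi
    have h1 : (i : ℝ) ≤ 3 * X / m + 2 := by
      have h2 : (i : ℝ) ≤ (⌊3 * X / m⌋₊ : ℝ) + 2 := by
        have : i ≤ ⌊3 * X / m⌋₊ + 2 := by omega
        exact_mod_cast this
      have h3 : (⌊3 * X / m⌋₊ : ℝ) ≤ 3 * X / m := Nat.floor_le (by positivity)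
      linarith only [h2, h3]
    have h4 : (i : ℝ) * m ≤ 3 * X + 2 * m := by
      have h5 := mul_le_mul_of_nonneg_right h1 hm0.le
      have h6 : (3 * X / m + 2) * m = 3 * X + 2 * m := by field_simp
      linarith only [h5, h6]
    have h7 : 0 ≤ (i : ℝ) * m := by positivity
    rw [hy]
    simp only
    rw [abs_le]
    constructor <;> linarith
  have hgr := Clp.all n (Φ := fun i J F A => ∀ B : F.Ω → Prop, Sub B A →
      ϖ * Pe F.p A ≤ Pe F.p B → |CH (Pool.Agent.H49.Ent.cond F.p B True) (F.X ⌊y i * J⌋₊) F.W -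
        r (y i) * Real.log 2 * J| ≤ e * X / 8 * J) (fun i hi => by
      have h1 := abs_le.1 (hyr i hi)
      exact Clp.ev (hC.rate (y i) (by linarith only [hXP, hXX, hm0, hmX, h1]) (by linarith only [hXP', hXX, hm0, hmX, h1]) (e * X / 8) (by positivity)) hϖ)
  refine Clp.mono (J₂ := 1) (hgr.and hC.pos) ?_
  rintro J hJ F A ⟨hA, hpA⟩ E hEA hE P₁ P₂ h12 hP₁ hP₂
  have hJ0 : (0 : ℝ) < J := by exact_mod_cast hJ
  have hEp : 0 < Pe F.p E := lt_of_lt_of_le (mul_pos hϖ hpA) hE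
  have hlE : IsLaw (Pool.Agent.H49.Ent.cond F.p E True) := isLaw_cond F.isLaw hEp
  -- the grid point below a row
  have hix : ∀ Q : ℕ, |(Q : ℝ) - P * J| ≤ X * J → ∃ i : ℕ, i + 1 < n ∧ y i * J ≤ Q ∧
      (Q : ℝ) < (y i + m) * J := by
    intro Q hQ
    have hQ' := abs_le.1 hQ
    have hQJ : P - X ≤ (Q : ℝ) / J ∧ (Q : ℝ) / J ≤ P + X := by
      constructor
      · rw [le_div_iff₀ hJ0]; linarith only [hQ']
      · rw [div_le_iff₀ hJ0]; linarith only [hQ']
    have hx0 : 0 ≤ ((Q : ℝ) / J - (P - 2 * X)) / m := by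
      refine div_nonneg ?_ hm0.le
      linarith only [hm0, hmX, hQJ, hQJ.1]
    refine ⟨⌊((Q : ℝ) / J - (P - 2 * X)) / m⌋₊, ?_, ?_, ?_⟩
    · have h1 : ⌊((Q : ℝ) / J - (P - 2 * X)) / m⌋₊ ≤ ⌊3 * X / m⌋₊ := by
        refine Nat.floor_le_floor ?_
        exact div_le_div_of_nonneg_right (by linarith only [hQJ, hQJ.2]) hm0.le
      omega
    · have h1 := Nat.floor_le hx0
      have h2 := mul_le_mul_of_nonneg_right h1 hm0.le
      rw [div_mul_cancel₀ _ hm0.ne'] at h2
      have h3 : y ⌊((Q : ℝ) / J - (P - 2 * X)) / m⌋₊ ≤ (Q : ℝ) / J := by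
        rw [hy]
        simp only
        linarith only [h2]
      have h4 := mul_le_mul_of_nonneg_right h3 hJ0.le
      rw [div_mul_cancel₀ _ hJ0.ne'] at h4
      exact h4
    · have h1 := Nat.lt_floor_add_one (((Q : ℝ) / J - (P - 2 * X)) / m)
      have h2 := mul_lt_mul_of_pos_right h1 hm0
      rw [div_mul_cancel₀ _ hm0.ne'] at h2
      have h3 : (Q : ℝ) / J < y ⌊((Q : ℝ) / J - (P - 2 * X)) / m⌋₊ + m := by
        rw [hy]
        simp only
        linarith only [h2]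
      have h4 := mul_lt_mul_of_pos_right h3 hJ0
      rw [div_mul_cancel₀ _ hJ0.ne'] at h4
      exact h4
  obtain ⟨i, hi, hi1, hi2⟩ := hix P₁ hP₁
  obtain ⟨j, hj, hj1, hj2⟩ := hix P₂ hP₂
  have ey : y (j + 1) = y j + m := by
    rw [hy]
    simp only
    push_cast
    ring
  have hin : i < n := by omega
  have f1 : ⌊y i * J⌋₊ ≤ P₁ := by
    have h1 : (0 : ℝ) ≤ y i * J := by
      have := abs_le.1 (hyr i hin)
      exact mul_nonneg (by linarith only [hXP, hXX, hm0, hmX, this]) hJ0.le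
    have h2 := Nat.floor_le h1
    exact_mod_cast h2.trans hi1
  have f2 : P₂ ≤ ⌊y (j + 1) * J⌋₊ := by
    refine Nat.le_floor ?_
    rw [ey]
    exact hj2.le
  have g1 := CH_rows F hlE h12
  have g2 := CH_X_mono F hlE f1
  have g3 := CH_X_mono F hlE f2
  have g4 := abs_le.1 (hA i hin E hEA hE)
  have g5 := abs_le.1 (hA (j + 1) hj E hEA hE)
  have d1 := abs_le.1 (hyr i hin)
  have d2 := abs_le.1 (hyr (j + 1) hj)
  have d3 := hd3 (y i) (lt_of_le_of_lt (hyr i hin) (by linarith only [hXδ, hXX, hm0, hmX]))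
  have d4 := hd3 (y (j + 1)) (lt_of_le_of_lt (hyr (j + 1) hj) (by linarith only [hXδ, hXX, hm0, hmX]))
  have d5 : e / 16 * |y i - P| ≤ e / 16 * (2 * X) :=
    mul_le_mul_of_nonneg_left (hyr i hin) (by positivity)
  have d6 : e / 16 * |y (j + 1) - P| ≤ e / 16 * (2 * X) :=
    mul_le_mul_of_nonneg_left (hyr (j + 1) hj) (by positivity)
  have d7 := abs_le.1 (d3.trans d5)
  have d8 := abs_le.1 (d4.trans d6)
  -- the difference of the rates
  have hyy : y i ≤ y (j + 1) := by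
    have h1 : y i * J ≤ (y j + m) * J := by
      have h2 : (P₁ : ℝ) ≤ P₂ := by exact_mod_cast h12
      linarith only [hi1, hj2, h2]
    rw [ey]
    exact le_of_mul_le_mul_right h1 hJ0
  have k1 : r (y (j + 1)) - r (y i) ≤ (3 - c) * (y (j + 1) - y i) + e * X / 4 := by
    have h1 : r' * (y (j + 1) - y i) ≤ (3 - c) * (y (j + 1) - y i) :=
      mul_le_mul_of_nonneg_right hr' (by linarith only [hyy])
    have h2 : r' * (y (j + 1) - y i) = r' * (y (j + 1) - P) - r' * (y i - P) := by ring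
    have h3 := d7.1
    have h4 := d8.2
    linarith only [d7, d8, h1]
  have k2 : (y (j + 1) - y i) * J ≤ ((P₂ : ℝ) - P₁) + 2 * m * J := by
    have h1 : (y (j + 1) - y i) * J = y j * J + 2 * m * J - (y i + m) * J := by
      rw [ey]
      ring
    linarith only [hi2, hj1, h1]
  have k3 : (P₂ : ℝ) - P₁ ≤ (y (j + 1) - y i) * J := by
    have h1 : (y (j + 1) - y i) * J = (y j + m) * J - y i * J := by
      rw [ey]
      ring
    linarith only [hi1, hj2, h1]
  -- bound of the main term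
  have k4 : (3 - c) * ((y (j + 1) - y i) * J) ≤ (3 - c) * ((P₂ : ℝ) - P₁) + 6 * m * J := by
    rcases le_total 0 (3 - c) with h | h
    · have h1 := mul_le_mul_of_nonneg_left k2 h
      have h2 : (3 - c) * (2 * m * J) ≤ 3 * (2 * m * J) :=
        mul_le_mul_of_nonneg_right (by linarith only [hc0]) (by positivity)
      linarith only [h1, h2]
    · have h1 := mul_le_mul_of_nonpos_left k3 h
      have h2 : 0 ≤ 6 * m * J := by positivity
      linarith only [hi1, hi2, h1]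
  have k5 : (r (y (j + 1)) - r (y i)) * J ≤
      (3 - c) * ((P₂ : ℝ) - P₁) + 6 * m * J + e * X / 4 * J := by
    have h1 := mul_le_mul_of_nonneg_right k1 hJ0.le
    have h2 : ((3 - c) * (y (j + 1) - y i) + e * X / 4) * J =
        (3 - c) * ((y (j + 1) - y i) * J) + e * X / 4 * J := by ring
    linarith only [k4, h1]
  have k6 : (r (y (j + 1)) - r (y i)) * J * Real.log 2 ≤
      ((3 - c) * ((P₂ : ℝ) - P₁) + 6 * m * J + e * X / 4 * J) * Real.log 2 :=
    mul_le_mul_of_nonneg_right k5 hl2.le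
  have k7 : (6 * m * J + e * X / 4 * J) * Real.log 2 ≤ 6 * m * J + e * X / 4 * J := by
    have h1 : 0 ≤ 6 * m * J + e * X / 4 * J := by positivity
    have h2 := mul_le_mul_of_nonneg_left hl2'.le h1
    linarith only [h2]
  have k8 : 6 * m * J + e * X / 4 * J + e * X / 8 * J + e * X / 8 * J ≤ ε * X * J := by
    have h1 : 6 * m * J = e * X / 4 * J := by rw [hm]; ring
    have h2 : e * X * J ≤ ε * X * J := by
      refine mul_le_mul_of_nonneg_right (mul_le_mul_of_nonneg_right heε hX.le) hJ0.le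
    have h3 : 0 ≤ e * X * J := by positivity
    have h4 : 6 * m * J + e * X / 4 * J + e * X / 8 * J + e * X / 8 * J = 3 / 4 * (e * X * J) := by
      rw [h1]
      ring
    linarith only [hi1, hi2, h1, h2]
  have k9 := g4.1
  have k10 := g5.2
  have k11 : (r (y (j + 1)) - r (y i)) * J * Real.log 2 =
      r (y (j + 1)) * Real.log 2 * J - r (y i) * Real.log 2 * J := by ring
  have k12 : ((3 - c) * ((P₂ : ℝ) - P₁) + 6 * m * J + e * X / 4 * J) * Real.log 2 =
      (3 - c) * ((P₂ : ℝ) - P₁) * Real.log 2 + (6 * m * J + e * X / 4 * J) * Real.log 2 := by ring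
  rw [g1]
  linarith only [g2, g3, g4, g5, k6, k7, k8]

end Pool.S6C
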