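import Pool.Agent.H89.ZCL.Tail

/-!
# The violation of a plank zoom

`G` is the zoom of `F` into windows of length `2 ^ (-w)`, in plank coordinates of precision `lam`,
truncated to the resolution `J'` and rounded (as in `Pool.ZCL.zm_tail`). The frame is a function of
the window, the frame and the cell of the velocity are visible from the exact points, and the rows
of the chart coordinate behind `w + J'` are full. Then the violation of `G` is at least the
violation of `F`, up to `m (J - J' - lam) log 2`.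
-/

set_option autoImplicit false

namespace Pool.ZCL

open Finset Real
open Pool.Agent.H49.Ent Pool.Agent.H32.Dense Pool.STK Pool.KA Pool.K2S Plk

variable {m J : ℕ}

/-! ### The lost rows of the velocities -/

/-- The velocities as positions. -/
noncomputable def velF (F : Fam m J) : Fam m J where
  Ω := F.Ω
  ζ := F.ζ
  fin := F.fin
  p := F.p
  u := F.d
  d := fun _ _ => 0
  T := F.T
  Z := F.Z
  isLaw := F.isLaw
  dir := fun _ _ => by norm_num
  tim := F.tim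

theorem velF_x (F : Fam m J) (ω : F.Ω) : (velF F).x ω = F.d ω := by
  funext i
  change F.d ω i + (velF F).t ω * 0 = F.d ω i
  ring

/-- The rounded velocity in the plank coordinates is a function of the velocity of the zoom and of
the label. -/
theorem vel_det (F : Fam m J) {w lam J' : ℕ} (h : J' ≤ J - w) {i0 : Fin m}
    {z : F.Ω → Fin m → ℝ} {ω ω' : F.Ω}
    (hD : (((F.box w (Box.plkC lam i0) z).trc J' h).rnd).D J' ω =
      (((F.box w (Box.plkC lam i0) z).trc J' h).rnd).D J' ω')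
    (hB : F.plab w lam i0 z ω = F.plab w lam i0 z ω') :
    (velF F).pX lam i0 z J' ω = (velF F).pX lam i0 z J' ω' := by
  have key : ∀ ω'' : F.Ω, ∀ i, (velF F).pX lam i0 z J' ω'' i =
      (((F.box w (Box.plkC lam i0) z).trc J' h).rnd).D J' ω'' i +
        2 ^ J' * F.pvl lam i0 z ω'' i := by
    intro ω'' i
    have p1 : (0 : ℝ) < 2 ^ J' := by positivity
    have e1 : (velF F).pX lam i0 z J' ω'' i =
        ⌊(2 : ℝ) ^ J' * pco lam i0 (z ω'') ((velF F).x ω'') i⌋ := rfl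
    have e2 : (((F.box w (Box.plkC lam i0) z).trc J' h).rnd).D J' ω'' i =
        ⌊(2 : ℝ) ^ J' * ((⌊(2 : ℝ) ^ J' * Int.fract (pco lam i0 (z ω'') (F.d ω'') i)⌋ : ℝ) /
          2 ^ J')⌋ := rfl
    have e3 : F.pvl lam i0 z ω'' i = ⌊(2 : ℝ) ^ 0 * pco lam i0 (z ω'') (F.d ω'') i⌋ := rfl
    rw [e1, e2, e3, velF_x, mul_div_cancel₀ _ p1.ne', Int.floor_intCast, pow_zero, one_mul]
    obtain ⟨y, hy⟩ : ∃ y, y = pco lam i0 (z ω'') (F.d ω'') i := ⟨_, rfl⟩
    rw [← hy]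
    have e4 : (2 : ℝ) ^ J' * y = (2 : ℝ) ^ J' * Int.fract y + ((2 ^ J' * ⌊y⌋ : ℤ) : ℝ) := by
      push_cast
      rw [← mul_add, Int.fract_add_floor]
    rw [e4, Int.floor_add_intCast]
  have hv : F.pvl lam i0 z ω = F.pvl lam i0 z ω' :=
    (Prod.ext_iff.mp (Prod.ext_iff.mp (Prod.ext_iff.mp hB).1).2).2
  funext i
  rw [key ω i, key ω' i, hD, hv]

/-- The rows of the velocities which are lost in the zoom. -/
theorem lost_rows (F : Fam m J) {w lam J' : ℕ} (h : J' ≤ J - w) (hJ : J' + lam ≤ J)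
    {i0 : Fin m} {z : F.Ω → Fin m → ℝ} {b : ℝ} (hb : 0 ≤ b)
    (hz : ∀ ω, 0 < F.p ω → ∀ i, |z ω i| ≤ b) :
    CH F.p (F.D J) (fun ω => ((((F.box w (Box.plkC lam i0) z).trc J' h).rnd).D J' ω,
      F.plab w lam i0 z ω)) ≤
      m * (((J : ℝ) - J' - lam) * Real.log 2) + lam * Real.log 2 + m * Real.log (2 * b + 5) := by
  have h0 := F.isLaw.nonneg
  obtain ⟨B, hB⟩ : ∃ B : F.Ω → (Fin m → ℤ) ×
      (((ℕ × (Fin m → ℝ)) × ((Fin m → ℤ) × (Fin m → ℤ))) × F.ζ),
    B = fun ω => ((((F.box w (Box.plkC lam i0) z).trc J' h).rnd).D J' ω,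
      F.plab w lam i0 z ω) := ⟨_, rfl⟩
  have s1 := CH_le_add h0 (F.D J) (F.D (J' + lam)) B
  have s2 := Pool.KA.TRC.CH_floor F.isLaw F.d B (J' + lam) (J - (J' + lam))
  have e1 : J' + lam + (J - (J' + lam)) = J := by omega
  rw [e1, Nat.cast_sub hJ] at s2
  push_cast at s2
  have s3 : CH F.p (F.D (J' + lam)) (fun ω => ((velF F).pX lam i0 z J' ω, z ω)) ≤
      lam * Real.log 2 + m * Real.log (2 * b + 5) := by
    have key := CH_X_given_pX (velF F) (g := J') (lam := lam) (i0 := i0) (z := z) hb hz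
    have e2 : (velF F).X (J' + lam) = F.D (J' + lam) := by
      funext ω
      exact congrArg (fl (J' + lam)) (velF_x F ω)
    rw [e2] at key
    exact key
  have s4 : CH F.p (F.D (J' + lam)) B ≤
      CH F.p (F.D (J' + lam)) (fun ω => ((velF F).pX lam i0 z J' ω, z ω)) := by
    refine CH_mono_cond h0 fun ω ω' _ _ hh => ?_
    rw [hB] at hh
    have a1 := Prod.ext_iff.mp hh
    simp only at a1
    have a2 : z ω = z ω' := (Prod.ext_iff.mp (Prod.ext_iff.mp (Prod.ext_iff.mp a1.2).1).1).2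
    exact Prod.ext (vel_det F h a1.1 a1.2) a2
  have s5 : CH F.p (F.D J) (fun ω => (F.D (J' + lam) ω, B ω)) ≤
      m * (((J : ℝ) - (J' + lam)) * Real.log 2) := s2
  have e3 : (J : ℝ) - (J' + lam) = J - J' - lam := by ring
  rw [e3] at s5
  have s6 : CH F.p (F.D J) B ≤ m * (((J : ℝ) - J' - lam) * Real.log 2) + lam * Real.log 2 +
      m * Real.log (2 * b + 5) := by
    linarith only [s1, s3, s4, s5]
  rw [hB] at s6
  exact s6

/-! ### The information of the label -/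

/-- The directions and a label of the windows. -/
theorem dir_label {κ : Type} (F : Fam m J) (B : F.Ω → κ) {e : ℝ} (hTm : F.Tm e)
    (hB : ∀ ω ω', 0 < F.p ω → 0 < F.p ω' → B ω = B ω' → F.Z ω = F.Z ω') :
    CH F.p (F.D J) F.Z ≤ CH F.p (F.D J) B + CH F.p B F.W + e := by
  have h0 := F.isLaw.nonneg
  have a1 := CH_bayes h0 (F.D J) F.T F.Z
  have a2 : CH F.p F.T F.Z ≤ J * Real.log 2 :=
    TRC.CH_lt F.isLaw F.T F.Z J (fun ω => F.tim ω)
  have a3 : CH F.p F.T (fun ω => (F.l ω, F.Z ω)) ≤ CH F.p F.T (fun ω => (F.D J ω, F.Z ω)) :=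
    CH_mono_cond h0 fun ω ω' _ _ hh => by
      have b1 := Prod.ext_iff.mp hh
      have b2 : F.d ω = F.d ω' := (Prod.ext_iff.mp b1.1).2
      refine Prod.ext ?_ b1.2
      change fl J (F.d ω) = fl J (F.d ω')
      rw [b2]
  have a4 : (J : ℝ) * Real.log 2 - e ≤ CH F.p F.T (fun ω => (F.l ω, F.Z ω)) := hTm
  have a5 := CH_le_add h0 (F.D J) B F.W
  have a6 : CH F.p (F.D J) (fun ω => (B ω, F.W ω)) ≤ CH F.p (F.D J) B :=
    CH_mono_cond h0 fun ω ω' _ _ hh => (Prod.ext_iff.mp hh).1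
  have a7 : CH F.p (F.D J) (fun ω => (F.T ω, F.Z ω)) = CH F.p (F.D J) F.W := rfl
  have a8 := hB
  linarith only [a1, a2, a3, a4, a5, a6, a7]

/-! ### The violation of the zoom -/

/-- The constant of the violation of the zoom. -/
noncomputable def CzV (m : ℕ) (b : ℝ) : ℝ :=
  m * Real.log (2 * b + 5) + m * Real.log 19 + 2 * (m * Real.log 17) +
    (m * Real.log (2 * b + 5) + m * Real.log 3) + m * Real.log 3 + 2 * (m * Real.log (2 * b + 7))

/-- **The violation of a plank zoom**, if the rows of the chart coordinate are full. -/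
theorem zm_V_one (F : Fam m J) {w lam J' : ℕ} (hJ : w + J' + lam ≤ J) (h : J' ≤ J - w)
    {i0 : Fin m} {z : F.Ω → Fin m → ℝ} {b η δ e : ℝ} (hb : 0 ≤ b)
    (hz : ∀ ω, 0 < F.p ω → ∀ i, |z ω i| ≤ b) (hg : Det F.p (wnd F w) z) (hTm : F.Tm e)
    (hv : CH F.p (fun ω => (z ω, F.pvl lam i0 z ω)) (K2S.Fam.pt F) ≤ δ)
    (hrow : lam * Real.log 2 - η ≤ CH F.p (fun ω => ⌊(2 : ℝ) ^ (w + J' + lam) * F.x ω i0⌋)
      (fun ω => (F.T ω, (F.plab (w + J') lam i0 z ω, F.plab w lam i0 z ω)))) :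
    F.V J - m * (((J : ℝ) - J' - lam) * Real.log 2) - (η + 2 * e + δ + CzV m b) ≤
      (((F.box w (Box.plkC lam i0) z).trc J' h).rnd).V J' := by
  have h0 := F.isLaw.nonneg
  have hw : w ≤ J := by omega
  obtain ⟨G, hG⟩ : ∃ G, G = ((F.box w (Box.plkC lam i0) z).trc J' h).rnd := ⟨_, rfl⟩
  obtain ⟨B, hB⟩ : ∃ B, B = F.plab w lam i0 z := ⟨_, rfl⟩
  obtain ⟨TB, hTB⟩ : ∃ TB, TB = fun ω => (F.T ω, B ω) := ⟨_, rfl⟩
  obtain ⟨YJ, hYJ⟩ : ∃ YJ : F.Ω → Fin m → ℤ, YJ = (F.plk w lam i0 z).X J' := ⟨_, rfl⟩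
  obtain ⟨q, hq⟩ : ∃ q, q = fun ω => ⌊(2 : ℝ) ^ (w + J' + lam) * F.x ω i0⌋ := ⟨_, rfl⟩
  obtain ⟨DG, hDG⟩ : ∃ DG : F.Ω → Fin m → ℤ,
    DG = (((F.box w (Box.plkC lam i0) z).trc J' h).rnd).D J' := ⟨_, rfl⟩
  obtain ⟨XG, hXG⟩ : ∃ XG : F.Ω → Fin m → ℤ, XG = rX (F.box w (Box.plkC lam i0) z) h J' :=
    ⟨_, rfl⟩
  obtain ⟨X0, hX0⟩ : ∃ X0 : F.Ω → Fin m → ℤ, X0 = rX (F.box w (Box.plkC lam i0) z) h 0 :=
    ⟨_, rfl⟩
  obtain ⟨WG, hWG⟩ : ∃ WG : F.Ω → ℕ × (((ℕ × (Fin m → ℝ)) × ((Fin m → ℤ) × (Fin m → ℤ))) × F.ζ),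
    WG = fun ω => ((F.box w (Box.plkC lam i0) z).T1 J' ω, F.plab w lam i0 z ω) := ⟨_, rfl⟩
  have hBZ : ∀ ω ω', B ω = B ω' → F.Z ω = F.Z ω' := by
    intro ω ω' hh
    rw [hB] at hh
    exact (Prod.ext_iff.mp hh).2
  -- the violations
  have hVF : F.V J = CH F.p (F.D J) F.Z - CH F.p (F.X J) F.W := by
    unfold Fam.V
    rw [sub_self, zero_mul, mul_zero, sub_zero]
  have hVG : (((F.box w (Box.plkC lam i0) z).trc J' h).rnd).V J' =
      CH F.p DG B - CH F.p XG WG := by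
    rw [hDG, hB, hXG, hWG]
    unfold Fam.V
    rw [sub_self, zero_mul, mul_zero, sub_zero]
    rfl
  -- the directions
  have d1 := dir_label F B hTm (fun ω ω' _ _ => hBZ ω ω')
  have d2 := CH_le_add h0 (F.D J) DG B
  have d3 : CH F.p (F.D J) (fun ω => (DG ω, B ω)) ≤
      m * (((J : ℝ) - J' - lam) * Real.log 2) + lam * Real.log 2 + m * Real.log (2 * b + 5) := by
    rw [hDG, hB]
    exact lost_rows F h (by omega) hb hz
  -- the positions of the zoom
  have x1 : CH F.p X0 WG ≤ m * Real.log 19 := by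
    have key := CH_vec_const F.isLaw X0 WG (c := 9) (fun ω ω' _ _ _ i => by
      have n1 := abs_le.1 (rnd_x_near (F.box w (Box.plkC lam i0) z) h ω i)
      have n2 := abs_le.1 (rnd_x_near (F.box w (Box.plkC lam i0) z) h ω' i)
      have m1 := Box.x_mem F w (Box.plkC lam i0) z ω i
      have m2 := Box.x_mem F w (Box.plkC lam i0) z ω' i
      have p1 : (3 : ℝ) / 2 ^ J' ≤ 3 := by
        rw [div_le_iff₀ (by positivity)]
        have : (1 : ℝ) ≤ 2 ^ J' := one_le_pow₀ one_le_two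
        linarith only [this]
      obtain ⟨y, hy⟩ : ∃ y, y = rx (F.box w (Box.plkC lam i0) z) h ω i := ⟨_, rfl⟩
      obtain ⟨y', hy'⟩ : ∃ y', y' = rx (F.box w (Box.plkC lam i0) z) h ω' i := ⟨_, rfl⟩
      have f1 : X0 ω i = ⌊y⌋ := by
        rw [hX0, hy]
        change ⌊(2 : ℝ) ^ 0 * rx (F.box w (Box.plkC lam i0) z) h ω i⌋ = _
        rw [pow_zero, one_mul]
      have f2 : X0 ω' i = ⌊y'⌋ := by
        rw [hX0, hy']
        change ⌊(2 : ℝ) ^ 0 * rx (F.box w (Box.plkC lam i0) z) h ω' i⌋ = _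
        rw [pow_zero, one_mul]
      have g1 : -3 ≤ y ∧ y < 5 := by
        rw [hy]
        unfold rx
        constructor
        · linarith only [h, n1, m1, p1, n1.1]
        · linarith only [h, n1, m1, p1, n1.2]
      have g2 : -3 ≤ y' ∧ y' < 5 := by
        rw [hy']
        unfold rx
        constructor
        · linarith only [h, n2, m2, p1, n2.1]
        · linarith only [h, n2, m2, p1, n2.2]
      rw [f1, f2]
      push_cast
      have u1 := Int.floor_le y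
      have u2 := Int.lt_floor_add_one y
      have u3 := Int.floor_le y'
      have u4 := Int.lt_floor_add_one y'
      rw [abs_le]
      constructor <;> linarith [g1.1, g1.2, g2.1, g2.2])
    have e : (2 : ℝ) * 9 + 1 = 19 := by norm_num
    rw [e] at key
    exact key
  have x2 := CH_le_add h0 XG X0 WG
  have x3 : CH F.p XG (fun ω => (X0 ω, WG ω)) ≤ CH F.p XG (fun ω => (X0 ω, TB ω)) + e := by
    have key := rnd_time F (w := w) (J' := J') (P := 0) (by omega) (Box.plkC lam i0) z hg hTm h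
    rw [hXG, hX0, hWG, hTB, hB]
    exact key
  have x4 : CH F.p XG (fun ω => (X0 ω, TB ω)) ≤ CH F.p YJ TB + 2 * (m * Real.log 17) := by
    have key := rnd_row (F.box w (Box.plkC lam i0) z) h (Nat.zero_le J') TB
    have k2 : CH F.p ((F.box w (Box.plkC lam i0) z).X J')
        (fun ω => ((F.box w (Box.plkC lam i0) z).X 0 ω, TB ω)) ≤
        CH F.p ((F.box w (Box.plkC lam i0) z).X J') TB :=
      CH_mono_cond h0 fun ω ω' _ _ hh => (Prod.ext_iff.mp hh).2
    have k3 : CH F.p ((F.box w (Box.plkC lam i0) z).X J') TB = CH F.p YJ TB := by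
      rw [hYJ]
      rfl
    rw [hXG, hX0]
    rw [← k3]
    exact key.trans (add_le_add k2 le_rfl)
  -- the rows of the chart coordinate
  have y1 := CH_chain h0 q YJ TB
  have y2 := CH_le_add h0 (fun ω => (q ω, YJ ω)) (F.X J) TB
  have y3 : CH F.p (fun ω => (q ω, YJ ω)) (fun ω => (F.X J ω, TB ω)) ≤
      m * Real.log (2 * b + 5) + m * Real.log 3 := by
    have c1 := CH_chain h0 q YJ (fun ω => (F.X J ω, TB ω))
    have c2 : CH F.p q (fun ω => (YJ ω, (F.X J ω, TB ω))) = 0 := by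
      refine CH_eq_zero h0 fun ω ω' _ _ hh => ?_
      have a1 : F.X J ω = F.X J ω' := (Prod.ext_iff.mp (Prod.ext_iff.mp hh).2).1
      have a2 : F.X (w + J' + lam) ω = F.X (w + J' + lam) ω' :=
        Pool.STK.B58.fl_fine hJ a1
      rw [hq]
      exact congrFun a2 i0
    have c3 : CH F.p YJ (fun ω => (F.X J ω, TB ω)) ≤
        m * Real.log (2 * b + 5) + m * Real.log 3 := by
      have key := CH_X_pt F (w := w) (K := J') (lam := lam) (r := J) hw hJ (i0 := i0) hb hz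
      rw [hYJ, hTB, hB]
      exact key
    linarith only [c1, c2, c3]
  have y4 : lam * Real.log 2 - η - m * Real.log 3 ≤ CH F.p q (fun ω => (YJ ω, TB ω)) := by
    obtain ⟨B', hB'⟩ : ∃ B', B' = fun ω => (F.T ω, (F.plab (w + J') lam i0 z ω,
      F.plab w lam i0 z ω)) := ⟨_, rfl⟩
    rw [← hq, ← hB'] at hrow
    have h2 : CH F.p q (fun ω => (YJ ω, B' ω)) ≤ CH F.p q (fun ω => (YJ ω, TB ω)) := by
      refine CH_mono_cond h0 fun ω ω' _ _ hh => ?_
      have a1 := Prod.ext_iff.mp hh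
      have a3 : B' ω = B' ω' := a1.2
      rw [hB'] at a3
      have a4 := Prod.ext_iff.mp a3
      refine Prod.ext a1.1 ?_
      rw [hTB, hB]
      exact Prod.ext a4.1 (Prod.ext_iff.mp a4.2).2
    have h3 := CH_bayes h0 q YJ B'
    have h4 := CH_nonneg h0 YJ (fun ω => (q ω, B' ω))
    have h5 : CH F.p YJ B' ≤ m * Real.log 3 := by
      have h6 := CH_X_le F (w := w) (K := J') (by omega) lam i0 z
      have h7 : CH F.p YJ (fun ω => (F.plab (w + J') lam i0 z ω, F.plab w lam i0 z ω)) ≤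
          m * Real.log 3 := by
        rw [hYJ]
        exact h6
      refine (CH_mono_cond h0 (W := fun ω => (F.plab (w + J') lam i0 z ω,
        F.plab w lam i0 z ω)) fun ω ω' _ _ hh => ?_).trans h7
      rw [hB'] at hh
      exact (Prod.ext_iff.mp hh).2
    linarith only [hrow, h2, h3, h4, h5]
  -- the label
  have z1 := CH_chain h0 (F.X J) B F.W
  have z2 := CH_chain h0 B (F.X J) F.W
  have z3 : CH F.p (fun ω => (F.X J ω, B ω)) F.W = CH F.p (fun ω => (B ω, F.X J ω)) F.W := by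
    refine CH_congr h0 ?_ ?_ (fun _ _ _ _ hh => hh) (fun _ _ _ _ hh => hh)
    · intro ω ω' _ _ hh
      have a1 := Prod.ext_iff.mp (Prod.ext_iff.mp hh).1
      exact Prod.ext a1.2 a1.1
    · intro ω ω' _ _ hh
      have a1 := Prod.ext_iff.mp (Prod.ext_iff.mp hh).1
      exact Prod.ext a1.2 a1.1
  have z4 : CH F.p (F.X J) TB ≤ CH F.p (F.X J) (fun ω => (B ω, F.W ω)) :=
    CH_mono_cond h0 fun ω ω' _ _ hh => by
      rw [hTB] at hh
      have a1 := Prod.ext_iff.mp hh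
      exact Prod.ext a1.2 (Prod.ext a1.1 (hBZ ω ω' a1.2))
  have z5 : CH F.p B (fun ω => (F.X J ω, F.W ω)) ≤ δ + 2 * (m * Real.log (2 * b + 7)) := by
    have key := plab_vis F (w := w) (w' := w) (lam := lam) (by omega) (by omega) (i0 := i0) hb hz
      hv
    have k2 : CH F.p B (K2S.Fam.pt F) ≤
        CH F.p (fun ω => (F.plab w lam i0 z ω, F.plab w lam i0 z ω)) (K2S.Fam.pt F) := by
      refine CH_mono_left h0 fun ω ω' _ _ hh => ?_
      rw [hB]
      exact (Prod.ext_iff.mp (Prod.ext_iff.mp hh).1).1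
    exact k2.trans key
  rw [hVG, hVF]
  unfold CzV
  linarith only [d1, d2, d3, x1, x2, x3, x4, y1, y2, y3, y4, z1, z2, z3, z4, z5]

/-- **The violation of a plank zoom.** -/
theorem zm_V {m : ℕ} {a η b : ℝ} (ha : 1 ≤ a) (hη : 0 < η) (hb : 0 ≤ b) : ∃ γ : ℝ, 0 < γ ∧
    ∀ R δ κ : ℝ, 0 < κ → ∃ τ > 0, ∃ J₁ : ℕ, ∀ J ≥ J₁, ∀ (F : Fam m J) (A : F.Ω → Prop),
    Fam.Stt F a R τ A → ∀ (i₀ : Fin m) (w lam J' x1 : ℕ) (z : F.Ω → Fin m → ℝ)
      (h : J' ≤ J - w), w + J' + lam ≤ J → (x1 : ℝ) ≤ γ * J →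
    Stb F.p (κ * J) A (FrzG F i₀ 0 (0 + x1)) → ¬ FrzG F i₀ 0 (0 + x1) A →
    (∀ ω ω', A ω → A ω' → 0 < F.p ω → 0 < F.p ω' → wnd F w ω = wnd F w ω' → z ω = z ω') →
    (∀ ω, A ω → 0 < F.p ω → ∀ i, |z ω i| ≤ b) →
    (∀ B : F.Ω → Prop, Sub B A → 0 < Pe F.p B →
      CH (cond F.p B True) (fun ω => (z ω, F.pvl lam i₀ z ω)) (K2S.Fam.pt F) ≤ δ) →
    ∀ hl : IsLaw (cond F.p A True),
    (R - η) * J - m * (((J : ℝ) - J' - lam) * Real.log 2) ≤
      ((((F.res A True hl).box w (Box.plkC lam i₀) z).trc J' h).rnd).V J' := by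
  have hl2 : 0 < Real.log 2 := Real.log_pos one_lt_two
  obtain ⟨γ, hγ, hws⟩ := ws_full (m := m) ha (by positivity : 0 < η / 8)
  refine ⟨γ, hγ, fun R δ κ hκ => ?_⟩
  obtain ⟨τ₀, hτ₀, J₀, hmain⟩ := hws R (δ + 2 * (m * Real.log (2 * b + 7))) κ hκ
  obtain ⟨τ, hτ⟩ : ∃ τ, τ = min τ₀ (η / 8) / (6 * (1 + a)) := ⟨_, rfl⟩
  have hmin : 0 < min τ₀ (η / 8) := lt_min hτ₀ (by positivity)
  have hτ0 : 0 < τ := by rw [hτ]; positivity
  have hτ1 : (1 + a) * (5 * τ + τ) = min τ₀ (η / 8) := by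
    rw [hτ]
    field_simp
    ring
  obtain ⟨Cs, hCs⟩ : ∃ Cs : ℝ, Cs = δ + CzV m b := ⟨_, rfl⟩
  obtain ⟨J₂, hJ₂⟩ := exists_nat_gt (8 * |Cs| / η)
  refine ⟨τ, hτ0, max J₀ J₂, fun J hJ F A hS i₀ w lam J' x1 z h hwJ hx1 hFs hFn hzw hzb hvis
    hl => ?_⟩
  have hJ0 : J₀ ≤ J := (le_max_left _ _).trans hJ
  have hJ2 : 8 * |Cs| / η < J := hJ₂.trans_le (by exact_mod_cast (le_max_right _ _).trans hJ)
  have hJr : (0 : ℝ) ≤ J := Nat.cast_nonneg J
  have hp := F.isLaw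
  have hA0 : 0 < Pe F.p A := lt_of_lt_of_le (Real.exp_pos _) hS.2.2.2
  obtain ⟨hl', r1, r2, r3⟩ := max_res F ha hτ0.le hτ0.le hS.1 hS.2.1 hS.2.2.1 A hS.2.2.2
  rw [hτ1] at r2
  have hpos : ∀ ω, 0 < cond F.p A True ω → A ω ∧ 0 < F.p ω := fun ω hω => by
    have h1 := (cond_pos_iff hp.nonneg A True ω).1 hω
    exact ⟨of_eq_true h1.2, h1.1⟩
  -- the restricted family
  have hStt : Fam.Stt (F.res A True hl) a R τ₀ (fun _ => True) := by
    refine ⟨r1, ?_, ?_, ?_⟩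
    · have h1 : min τ₀ (η / 8) * (J : ℝ) ≤ τ₀ * J :=
        mul_le_mul_of_nonneg_right (min_le_left _ _) hJr
      obtain ⟨g1, g2⟩ := r2
      refine ⟨?_, ?_⟩
      · unfold Fam.Tm at g1 ⊢
        linarith only [hl, hl', h1, g1]
      · have h2 : (R - τ₀) * (J : ℝ) ≤ (R - min τ₀ (η / 8)) * J := by nlinarith only [h1]
        exact h2.trans g2
    · have h1 : (τ + τ) * (J : ℝ) ≤ τ₀ * J := by
        refine mul_le_mul_of_nonneg_right ?_ hJr
        have h2 : min τ₀ (η / 8) ≤ τ₀ := min_le_left _ _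
        rw [← hτ1] at h2
        nlinarith only [hτ0, h2, ha]
      obtain ⟨⟨a1, b1⟩, ⟨a2, b2⟩, ⟨a3, b3⟩, ⟨a4, b4⟩, ⟨a5, b5⟩⟩ := r3
      exact ⟨⟨a1, rg_mono h1 b1⟩, ⟨a2, rg_mono h1 b2⟩, ⟨a3, rg_mono h1 b3⟩, ⟨a4, rg_mono h1 b4⟩,
        ⟨a5, rg_mono h1 b5⟩⟩
    · have h1 : Pe (F.res A True hl).p (fun _ => True) = 1 := Pe_univ hl
      rw [h1]
      exact Real.exp_le_one_iff.2 (by
        have : 0 ≤ τ₀ * (J : ℝ) := by positivity
        linarith only [this])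
  have hzw' : Det (F.res A True hl).p (wnd (F.res A True hl) w) z := by
    intro ω ω' hω hω' hh
    have h1 := hpos ω hω
    have h2 := hpos ω' hω'
    exact hzw ω ω' h1.1 h2.1 h1.2 h2.2 hh
  have hzb' : ∀ ω, 0 < (F.res A True hl).p ω → ∀ i, |z ω i| ≤ b := fun ω hω =>
    hzb ω (hpos ω hω).1 (hpos ω hω).2
  have hTm : (F.res A True hl).Tm (η / 8 * J) := by
    have h1 := r2.1
    unfold Fam.Tm at h1 ⊢
    have h2 : min τ₀ (η / 8) * (J : ℝ) ≤ η / 8 * J :=
      mul_le_mul_of_nonneg_right (min_le_right _ _) hJr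
    linarith only [hl, hl', h1, h2]
  obtain ⟨s1, s2⟩ := Stb.res hp hA0 (FrzG.hered F i₀ 0 (0 + x1)) hFs hFn
  -- the rows of the chart coordinate
  have hrow := hmain J hJ0 (F.res A True hl) (fun _ => True) hStt i₀ (w + J') 0 lam x1 _
    (fun ω => ((F.res A True hl).plab (w + J') lam i₀ z ω, (F.res A True hl).plab w lam i₀ z ω))
    (by omega) hx1 s1 s2 (by
      intro ω ω' hω hω' hh
      have a1 := Prod.ext_iff.mp hh
      have a2 := Prod.ext_iff.mp a1.2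
      have a0 : (F.res A True hl).l ω = (F.res A True hl).l ω' := a1.1
      have a3 : (F.res A True hl).T1 (w + J') ω = (F.res A True hl).T1 (w + J') ω' := a2.1
      have aZ : (F.res A True hl).Z ω = (F.res A True hl).Z ω' := a2.2
      have a4 : (F.res A True hl).T1 w ω = (F.res A True hl).T1 w ω' := by
        rw [Pool.KSAT.T1_div _ (by omega : w + J' ≤ J) ω,
          Pool.KSAT.T1_div _ (by omega : w + J' ≤ J) ω', a3]
      have a5 := hzw' ω ω' hω hω' (Prod.ext a0 (Prod.ext a4 aZ))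
      exact Prod.ext (plab_det _ a0 a3 a5 aZ).1 (plab_det _ a0 a4 a5 aZ).1)
    (by
      intro B hB hB0
      have hB1 : cond (F.res A True hl).p B True = cond F.p (fun ω => A ω ∧ B ω) True :=
        cond_and F.p hA0.ne'
      have hlB : IsLaw (cond (F.res A True hl).p B True) := isLaw_cond hl hB0
      have hPB : 0 < Pe F.p (fun ω => A ω ∧ B ω) := by
        have h1 : Pe (F.res A True hl).p B = Pe F.p (fun ω => A ω ∧ B ω) / Pe F.p A := Pe_cond B
        rw [h1] at hB0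
        by_contra hcon
        push Not at hcon
        have := div_nonpos_of_nonpos_of_nonneg hcon hA0.le
        linarith only [hB0, this]
      have h2 := hvis (fun ω => A ω ∧ B ω) (fun ω hω => hω.1) hPB
      rw [← hB1] at h2
      have key := plab_vis ((F.res A True hl).res B True hlB) (w := w) (w' := w + J')
        (lam := lam) (by omega) (by omega) (i0 := i₀) (z := z) hb (fun ω hω => by
          have h3 := (cond_pos_iff hl.nonneg B True ω).1 hω
          exact hzb' ω h3.1) h2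
      refine le_trans (CH_mono_cond hlB.nonneg fun ω ω' _ _ hh => ?_) key
      exact (Prod.ext_iff.mp hh).1)
  have e1 : cond (F.res A True hl).p (fun _ => True) True = (F.res A True hl).p := cond_univ hl
  rw [e1] at hrow
  have e2 : 0 + (w + J') + lam = w + J' + lam := by omega
  rw [e2] at hrow
  have hrow' : lam * Real.log 2 - η / 8 * J ≤ CH (F.res A True hl).p
      (fun ω => ⌊(2 : ℝ) ^ (w + J' + lam) * (F.res A True hl).x ω i₀⌋)
      (fun ω => ((F.res A True hl).T ω, ((F.res A True hl).plab (w + J') lam i₀ z ω,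
        (F.res A True hl).plab w lam i₀ z ω))) := by
    refine hrow.trans (CH_mono_cond hl.nonneg fun ω ω' _ _ hh => ?_)
    have a1 := Prod.ext_iff.mp hh
    have a2 := Prod.ext_iff.mp a1.2
    exact Prod.ext a1.1 (Prod.ext_iff.mp a2.2).1
  -- the violation
  have hVF : (R - η / 8) * J ≤ (F.res A True hl).V J := by
    have h1 := r2.2
    have h2 : (R - η / 8) * (J : ℝ) ≤ (R - min τ₀ (η / 8)) * J :=
      mul_le_mul_of_nonneg_right (by linarith only [min_le_right τ₀ (η / 8)]) hJr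
    refine h2.trans (h1.trans ?_)
    unfold Fam.Ga Fam.V
    rw [sub_self, zero_mul, mul_zero, sub_zero]
    have h3 : 0 ≤ CH (F.res A True hl).p ((F.res A True hl).X J) (F.res A True hl).W :=
      CH_nonneg hl.nonneg _ _
    have h4 := mul_le_mul_of_nonneg_right ha h3
    linarith only [hl', hl, h4]
  have hv : CH (F.res A True hl).p (fun ω => (z ω, (F.res A True hl).pvl lam i₀ z ω))
      (K2S.Fam.pt (F.res A True hl)) ≤ δ := hvis A (fun _ hω => hω) hA0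
  have hone := zm_V_one (F.res A True hl) hwJ h hb hzb' hzw' hTm hv hrow'
  have hCJ : Cs ≤ η / 8 * J := by
    rw [div_lt_iff₀ hη] at hJ2
    have := le_abs_self Cs
    linarith only [hJ2, this]
  rw [hCs] at hCJ
  have h8 : 0 ≤ η / 8 * (J : ℝ) := by positivity
  have e8 : (R - η / 8) * (J : ℝ) = R * J - η / 8 * J := by ring
  have e9 : (R - η) * (J : ℝ) = R * J - 8 * (η / 8 * J) := by ring
  rw [e9]
  rw [e8] at hVF
  linarith only [hl, h, hVF, hone, hCJ, h8]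

/-- **The violation of a plank zoom**, for the events of the zoomed family. -/
theorem zm_V_res {m : ℕ} {a η b : ℝ} (ha : 1 ≤ a) (hη : 0 < η) (hb : 0 ≤ b) :
    ∃ γ : ℝ, 0 < γ ∧ ∀ R δ κ : ℝ, 0 < κ → ∃ τ > 0, ∃ J₁ : ℕ, ∀ J ≥ J₁, ∀ (F : Fam m J)
    (A : F.Ω → Prop), Fam.Stt F a R τ A → ∀ (i₀ : Fin m) (w lam J' x1 : ℕ)
      (z : F.Ω → Fin m → ℝ) (h : J' ≤ J - w), w + J' + lam ≤ J → (x1 : ℝ) ≤ γ * J →
    Stb F.p (κ * J) A (FrzG F i₀ 0 (0 + x1)) → ¬ FrzG F i₀ 0 (0 + x1) A →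
    (∀ ω ω', A ω → A ω' → 0 < F.p ω → 0 < F.p ω' → wnd F w ω = wnd F w ω' → z ω = z ω') →
    (∀ ω, A ω → 0 < F.p ω → ∀ i, |z ω i| ≤ b) →
    (∀ B : F.Ω → Prop, Sub B A → 0 < Pe F.p B →
      CH (cond F.p B True) (fun ω => (z ω, F.pvl lam i₀ z ω)) (K2S.Fam.pt F) ≤ δ) →
    ∀ (hA : IsLaw (cond F.p A True)) (B : F.Ω → Prop),
      Real.exp (-(τ * J)) ≤ Pe (cond F.p A True) B →
    ∀ hB : IsLaw (cond (cond F.p A True) B True),
    (R - η) * J - m * (((J : ℝ) - J' - lam) * Real.log 2) ≤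
      (((((F.res A True hA).box w (Box.plkC lam i₀) z).trc J' h).rnd).res B True hB).V J' := by
  obtain ⟨γ, hγ, hz⟩ := zm_V (m := m) ha hη hb
  refine ⟨γ, hγ, fun R δ κ hκ => ?_⟩
  obtain ⟨τ₁, hτ₁, J₁, hmain⟩ := hz R δ (κ / 2) (by positivity)
  obtain ⟨τ, hτ⟩ : ∃ τ, τ = min (τ₁ / 2) (κ / 2) := ⟨_, rfl⟩
  have hτ0 : 0 < τ := by rw [hτ]; exact lt_min (by positivity) (by positivity)
  have hτ1 : τ ≤ τ₁ / 2 := by rw [hτ]; exact min_le_left _ _
  have hτ2 : τ ≤ κ / 2 := by rw [hτ]; exact min_le_right _ _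
  refine ⟨τ, hτ0, J₁, fun J hJ F A hS i₀ w lam J' x1 z h hwJ hx1 hFs hFn hzw hzb hvis hA B hB
    hlB => ?_⟩
  have hJr : (0 : ℝ) ≤ J := Nat.cast_nonneg J
  have hA0 : 0 < Pe F.p A := lt_of_lt_of_le (Real.exp_pos _) hS.2.2.2
  have hlAB : IsLaw (cond F.p (fun ω => A ω ∧ B ω) True) := by
    rw [← cond_and F.p hA0.ne']
    exact hlB
  have hVV : (((((F.res A True hA).box w (Box.plkC lam i₀) z).trc J' h).rnd).res B True hlB).V J' =
      ((((F.res (fun ω => A ω ∧ B ω) True hlAB).box w (Box.plkC lam i₀) z).trc J' h).rnd).V J' := by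
    have e1 : (((((F.res A True hA).box w (Box.plkC lam i₀) z).trc J' h).rnd).res B True hlB).p =
        ((((F.res (fun ω => A ω ∧ B ω) True hlAB).box w (Box.plkC lam i₀) z).trc J' h).rnd).p :=
      cond_and F.p hA0.ne'
    unfold Fam.V
    rw [e1]
    rfl
  rw [hVV]
  have hAB : Real.exp (-(τ * J)) * Pe F.p A ≤ Pe F.p (fun ω => A ω ∧ B ω) := by
    rw [Pe_cond, le_div_iff₀ hA0] at hB
    exact hB
  have hS' : Fam.Stt F a R τ₁ (fun ω => A ω ∧ B ω) := by
    have h1 := Fam.Stt.mono (by linarith only [hτ0, hτ1] : τ ≤ τ₁) hS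
    refine ⟨h1.1, h1.2.1, h1.2.2.1, le_trans ?_ hAB⟩
    refine le_trans ?_ (mul_le_mul_of_nonneg_left hS.2.2.2 (Real.exp_pos _).le)
    rw [← Real.exp_add]
    refine Real.exp_le_exp.2 ?_
    have := mul_le_mul_of_nonneg_right hτ1 hJr
    linarith only [this]
  have hsub : Sub (fun ω => A ω ∧ B ω) A := fun ω hω => hω.1
  have hFn' : ¬ FrzG F i₀ 0 (0 + x1) (fun ω => A ω ∧ B ω) := by
    rcases hFs with h1 | h1
    · exact absurd h1 hFn
    · refine h1 _ hsub (le_trans (mul_le_mul_of_nonneg_right (Real.exp_le_exp.2 ?_) hA0.le) hAB)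
      have := mul_le_mul_of_nonneg_right hτ2 hJr
      have : 0 ≤ κ * (J : ℝ) := by positivity
      linarith
  have hFs' : Stb F.p (κ / 2 * J) (fun ω => A ω ∧ B ω) (FrzG F i₀ 0 (0 + x1)) := by
    refine Stb.mono F.isLaw ?_ (hFs.sub (FrzG.hered F i₀ 0 (0 + x1)) hsub hAB)
    have := mul_le_mul_of_nonneg_right hτ2 hJr
    linarith only [this]
  exact hmain J hJ F (fun ω => A ω ∧ B ω) hS' i₀ w lam J' x1 z h hwJ hx1 hFs' hFn'
    (fun ω ω' h1 h2 => hzw ω ω' h1.1 h2.1) (fun ω h1 => hzb ω h1.1)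
    (fun B' hB' hP' => hvis B' (hB'.trans hsub) hP') hlAB

end Pool.ZCL
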