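import Pool.Agent.H18.PB.End

/-!
# The end for one family with large violation

`end_fam` is `end_mx` for one family: instead of a class of maximal families, the violation of the
restrictions of the family to the large sub-events of the given event is at least `R J`.
-/

set_option autoImplicit false

namespace Pool.PB

open Finset Real
open Pool.Agent.H49.Ent Pool.Agent.H32.Dense Pool.STK Pool.KA Pool.KSAT Pool.K2S Pool.KA.TRC
open Pool.KEND Pool.KQ

open End in
open Classical in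
/-- **(END)** for one family: a family whose violation is at least `R J` on all large sub-events
has no ball labels of almost full precision on windows of small length exponent, if its fans are
spread. -/
theorem end_fam (k : ℕ) {R : ℝ} (hR : 0 < R) : ∃ x : ℝ, 0 < x ∧ ∃ g₁ : ℝ, 0 < g₁ ∧
    ∃ τ' : ℝ, 0 < τ' ∧ ∀ ψ : ℝ, 0 < ψ → ∀ K N : ℕ, 1 ≤ N → ∃ J₁ : ℕ, ∀ J ≥ J₁,
    ∀ (F : Fam (k + 2) J) (A : F.Ω → Prop) (i₁ : Fin (k + 2)) (i p ρ : ℕ), (i : ℝ) ≤ x * N →
      (1 - x) * N ≤ p → p ≤ ρ → ρ ≤ N → 0 < Pe F.p A →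
      (∀ A' : F.Ω → Prop, Sub A' A → Pe F.p A ≤ 2 * Pe F.p A' →
        ∀ hlaw : IsLaw (Pool.Agent.H49.Ent.cond F.p A' True),
        (F.res A' True hlaw).Tm (τ' * J) ∧ (R - τ') * J ≤ (F.res A' True hlaw).V J) →
      Sp F k ψ g₁ A → Bl F i₁ N K ρ i p A → False := by
  obtain ⟨C, hC, hfull⟩ := full_lab k
  have hl2 : 0 < Real.log 2 := Real.log_pos (by norm_num)
  have hl2' : Real.log 2 ≤ 1 := by
    have := Real.log_le_sub_one_of_pos (show (0 : ℝ) < 2 by norm_num)
    linarith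
  have hk : (0 : ℝ) ≤ k := by positivity
  -- constants
  obtain ⟨x, hx⟩ : ∃ x, x = min (1 / 4) (R / (8 * ((k : ℝ) + 3))) := ⟨_, rfl⟩
  have hx0 : 0 < x := by rw [hx]; positivity
  have hx4 : x ≤ 1 / 4 := by rw [hx]; exact min_le_left _ _
  have hx1 : ((k : ℝ) + 3) * x ≤ R / 8 := by
    have : x ≤ R / (8 * ((k : ℝ) + 3)) := by rw [hx]; exact min_le_right _ _
    rw [le_div_iff₀ (by positivity)] at this
    linarith only [this]
  obtain ⟨g₁, hg₁⟩ : ∃ g₁, g₁ = min (R / (48 * ((k : ℝ) + 2) ^ 3)) (1 / (4 * ((k : ℝ) + 2))) :=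
    ⟨_, rfl⟩
  have hg₁0 : 0 < g₁ := by rw [hg₁]; positivity
  have hg₁R : 6 * ((k : ℝ) + 2) ^ 3 * g₁ ≤ R / 8 := by
    have : g₁ ≤ R / (48 * ((k : ℝ) + 2) ^ 3) := by rw [hg₁]; exact min_le_left _ _
    rw [le_div_iff₀ (by positivity)] at this
    linarith only [this]
  have hg₁4 : ((k : ℝ) + 2) * g₁ ≤ 1 / 4 := by
    have : g₁ ≤ 1 / (4 * ((k : ℝ) + 2)) := by rw [hg₁]; exact min_le_right _ _
    rw [le_div_iff₀ (by positivity)] at this
    linarith only [this]
  have hKE : 0 ≤ KE (k + 2) := by unfold KE; positivity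
  obtain ⟨τ', hτ'⟩ : ∃ τ', τ' = R / (8 * (((k : ℝ) + 3) / g₁ + KE (k + 2) + 3)) := ⟨_, rfl⟩
  have hτ'0 : 0 < τ' := by rw [hτ']; positivity
  have hτ'1 : (((k : ℝ) + 3) / g₁ + KE (k + 2) + 3) * τ' ≤ R / 8 := by
    rw [hτ']
    refine le_of_eq ?_
    field_simp
  exact by
   refine ⟨x, hx0, g₁, hg₁0, τ', hτ'0, fun ψ hψ K N hN => ?_⟩
   have hN0 : (1 : ℝ) ≤ N := by exact_mod_cast hN
   obtain ⟨δ, hδ⟩ : ∃ δ, δ = CV (k + 2) K + cc (k + 2) / g₁ + 1 := ⟨_, rfl⟩
   have hcc := cc_nonneg (k + 2)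
   have hCV := CV_nonneg (k + 2) K
   have hδ0 : 0 < δ := by
     have : 0 ≤ cc (k + 2) / g₁ := by positivity
     rw [hδ]; linarith only [hx0, hx4, hCV, this]
   obtain ⟨Lρ, hLρ⟩ : ∃ L, L = Real.log (16 * ((k : ℝ) + 2) ^ 2 / R + 1) := ⟨_, rfl⟩
   have hLρ0 : 0 ≤ Lρ := by
     rw [hLρ]
     exact Real.log_nonneg (by linarith only [hR, show 0 ≤ 16 * ((k : ℝ) + 2) ^ 2 / R by positivity])
   obtain ⟨Cst, hCst⟩ : ∃ Cst, Cst = N + 30 * ((k : ℝ) + 2) ^ 3 + C / g₁ + C + |CF (k + 2) K| :=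
     ⟨_, rfl⟩
   have hCst0 : 0 ≤ Cst := by
     have := abs_nonneg (CF (k + 2) K)
     rw [hCst]; positivity
   obtain ⟨J₁, hJ₁⟩ := exists_nat_gt (16 * Cst / R +
     (4 * δ + 4 * Real.log 2 + 4 * Lρ) / ψ + 20 * ((k : ℝ) + 2) + 2 + N)
   refine ⟨J₁, ?_⟩
   intro J hJ F A i₁ i p ρ' hi hp hpρ hρN hA0 hval hSpr hBl
   have hJr : (J₁ : ℝ) ≤ J := by exact_mod_cast hJ
   have t1 : 0 ≤ 16 * Cst / R := by positivity
   have t3 : 0 ≤ (4 * δ + 4 * Real.log 2 + 4 * Lρ) / ψ := by positivity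
   have t4 : 0 ≤ 20 * ((k : ℝ) + 2) := by positivity
   have hJ0 : (0 : ℝ) < J := by linarith only [hx0, hx4, hN0, hJ₁, hJr, t1, t3]
   have j1 : 16 * Cst / R < J := by linarith only [hx0, hx4, hN0, hJ₁, hJr, t3]
   have j3 : (4 * δ + 4 * Real.log 2 + 4 * Lρ) / ψ < J := by linarith only [hx0, hx4, hN0, hJ₁, hJr, t1]
   have j4 : 20 * ((k : ℝ) + 2) < J := by linarith only [hx0, hx4, hN0, hJ₁, hJr, t1, t3]
   have j5 : (2 : ℝ) < J := by linarith only [hx0, hx4, hN0, hJ₁, hJr, t1, t3]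
   exact by
    have hJ2 : 2 ≤ J := by
      have : 2 < J := by exact_mod_cast j5
      omega
    rw [div_lt_iff₀ hR] at j1
    rw [div_lt_iff₀ hψ] at j3
    have hpl := F.isLaw
    -- the label
    obtain ⟨G, H, hG, hH, hGH⟩ := hBl
    obtain ⟨w, hw⟩ : ∃ w, w = i * (J / N) := ⟨_, rfl⟩
    obtain ⟨P, hP⟩ : ∃ P, P = p * (J / N) := ⟨_, rfl⟩
    obtain ⟨r, hr⟩ : ∃ r, r = ρ' * (J / N) := ⟨_, rfl⟩
    rw [← hw, ← hP, ← hr] at hGH
    have hNJ : N * (J / N) ≤ J := Nat.mul_div_le J N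
    have hNJ2 : (J : ℝ) ≤ N * ((J / N : ℕ) : ℝ) + N := by
      have h1 := Nat.lt_mul_div_succ J (show 0 < N by omega)
      have h2 : (J : ℝ) < ((N * (J / N + 1) : ℕ) : ℝ) := by exact_mod_cast h1
      push_cast at h2
      linarith only [h2]
    have hu0 : (0 : ℝ) ≤ ((J / N : ℕ) : ℝ) := by positivity
    have hNJr : (N : ℝ) * ((J / N : ℕ) : ℝ) ≤ J := by exact_mod_cast hNJ
    have hrJ : r ≤ J := by
      rw [hr]
      exact (Nat.mul_le_mul_right _ hρN).trans hNJ
    have hPr : P ≤ r := by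
      rw [hP, hr]
      exact Nat.mul_le_mul_right _ hpρ
    have hwx : (w : ℝ) ≤ x * J := by
      rw [hw]
      push_cast
      calc (i : ℝ) * ((J / N : ℕ) : ℝ) ≤ x * N * ((J / N : ℕ) : ℝ) :=
            mul_le_mul_of_nonneg_right hi hu0
        _ = x * (N * ((J / N : ℕ) : ℝ)) := by ring
        _ ≤ x * J := mul_le_mul_of_nonneg_left hNJr hx0.le
    exact by
     have hPx : (J : ℝ) - P ≤ x * J + N := by
       have h1 : (1 - x) * N * ((J / N : ℕ) : ℝ) ≤ P := by
         rw [hP]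
         push_cast
         exact mul_le_mul_of_nonneg_right hp hu0
       have h2 : (1 - x) * (J - N) ≤ (1 - x) * N * ((J / N : ℕ) : ℝ) := by
         have := mul_le_mul_of_nonneg_left (show (J : ℝ) - N ≤ N * ((J / N : ℕ) : ℝ) by linarith only [hNJ2])
           (show 0 ≤ 1 - x by linarith only [hx0, hx4])
         linarith only [this]
       have h3 : (1 - x) * ((J : ℝ) - N) = J - x * J - N + x * N := by ring
       have h4 : 0 ≤ x * N := by positivity
       linarith only [hi, h1, h2]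
     have hwJ4 : (w : ℝ) ≤ J / 4 := by
       have : x * J ≤ 1 / 4 * J := mul_le_mul_of_nonneg_right hx4 hJ0.le
       linarith only [hwx, this]
     have h2w : 2 * w ≤ J := by
       have : ((2 * w : ℕ) : ℝ) ≤ J := by push_cast; linarith only [hx0, hx4, hN0, hJ₁, hJr, t1, t3, hwJ4]
       exact_mod_cast this
     have hwJ : w ≤ J := by omega
     -- the blocks
     obtain ⟨h, hh⟩ : ∃ h, h = ⌊g₁ * J⌋₊ := ⟨_, rfl⟩
     have hh1 : (h : ℝ) ≤ g₁ * J := by rw [hh]; exact Nat.floor_le (by positivity)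
     have hh2 : g₁ * J < h + 1 := by rw [hh]; exact Nat.lt_floor_add_one _
     obtain ⟨g, hg⟩ : ∃ g, g = (h + 2 + 3) * (k + 1) + (h + 2) := ⟨_, rfl⟩
     have hgr : (g : ℝ) = (h + 2 + 3) * (k + 1) + (h + 2) := by rw [hg]; push_cast; ring
     have hg2 : (g : ℝ) ≤ (k + 2) * (g₁ * J + 5) := by
       have h1 : (h + 2 + 3) * ((k : ℝ) + 1) + (h + 2) = (k + 2) * (h + 5) - 3 := by ring
       have h2 : ((k : ℝ) + 2) * (h + 5) ≤ (k + 2) * (g₁ * J + 5) :=
         mul_le_mul_of_nonneg_left (by linarith only [hh1]) (by linarith only [hx0, hx4])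
       rw [hgr, h1]
       linarith only [hx0, hx4, h2]
     exact by
      have hg3 : g₁ * J ≤ g := by
        have h1 : (0 : ℝ) ≤ (h + 2 + 3) * ((k : ℝ) + 1) := by positivity
        rw [hgr]
        linarith only [hx0, hx4, hh2, h1]
      have hg0 : 0 < g := by rw [hg]; omega
      have hg0r : (0 : ℝ) < g := by exact_mod_cast hg0
      have hwg : w + g ≤ J := by
        have h1 : ((k : ℝ) + 2) * (g₁ * J + 5) = ((k + 2) * g₁) * J + 5 * (k + 2) := by ring
        have h2 : (((k : ℝ) + 2) * g₁) * J ≤ 1 / 4 * J := mul_le_mul_of_nonneg_right hg₁4 hJ0.le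
        have : ((w + g : ℕ) : ℝ) ≤ J := by push_cast; linarith only [hx0, hx4, hN0, hJ₁, hJr, t1, t3, hwJ4, hg2, h2]
        exact_mod_cast this
      obtain ⟨Rr, hRr⟩ : ∃ Rr, Rr = (J - w) / g - 1 := ⟨_, rfl⟩
      obtain ⟨b1, b2⟩ := blocks hg0 hwg hRr
      have b1r : (w : ℝ) + (Rr + 1) * g ≤ J := by exact_mod_cast b1
      have b2r : (J : ℝ) < w + (Rr + 2) * g := by exact_mod_cast b2
      have hRg : (Rr : ℝ) * g ≤ J := by
        have : (0 : ℝ) ≤ w := by positivity
        nlinarith only [hg0r, b1r]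
      have hRr1 : (Rr : ℝ) * g₁ ≤ 1 := by
        have h1 : (Rr : ℝ) * (g₁ * J) ≤ J := (mul_le_mul_of_nonneg_left hg3 (by positivity)).trans hRg
        have h2 : (Rr * g₁) * J ≤ 1 * J := by linarith only [h1]
        exact le_of_mul_le_mul_right h2 hJ0
      -- the labels of the blocks
      obtain ⟨L, hL⟩ : ∃ L : F.Ω → (((ℕ × (Fin (k + 2) → ℤ)) × F.ζ) × (Fin (nex (k + 2) K) → ℤ)) ×
          (Fin Rr → (ℕ × (Fin (k + 2) → ℤ)) × F.ζ),
        L = fun ω => (zlab F i₁ K w P H ω, fun l : Fin Rr => F.c (w + (l : ℕ) * g) ω) := ⟨_, rfl⟩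
      have hlw : ∀ l : Fin Rr, w + (l : ℕ) * g ≤ J := by
        intro l
        have : (l : ℕ) * g ≤ (Rr + 1) * g := Nat.mul_le_mul_right g (by omega)
        omega
      exact by
       have hres : ∀ B : F.Ω → Prop, Sub B A → 0 < Pe F.p B →
           CH (Pool.Agent.H49.Ent.cond F.p B True) L (Fam.pt F) ≤ δ := by
         intro B hBA hB
         have hlaw := isLaw_cond hpl hB
         have h1 := CH_pi_le hlaw.nonneg (c := cc (k + 2)) (Fam.pt F) Rr
           (fun (l : Fin Rr) ω => F.c (w + (l : ℕ) * g) ω)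
           (fun l => Rows.CH_c_pt (F.res B True hlaw) (hlw l))
         have h2 := zlab_vis (F.res B True hlaw) i₁ hwJ hrJ G H hG hH
           (fun ω hω => fun b hb => ((hGH ω (hBA ω (of_cond_pos hω))).2 b hb).2)
         have h3 := CH_subadd hlaw.nonneg (zlab F i₁ K w P H)
           (fun ω (l : Fin Rr) => F.c (w + (l : ℕ) * g) ω) (Fam.pt F)
         have h4 : (Rr : ℝ) * cc (k + 2) ≤ cc (k + 2) / g₁ := by
           rw [le_div_iff₀ hg₁0]
           calc (Rr : ℝ) * cc (k + 2) * g₁ = (Rr * g₁) * cc (k + 2) := by ring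
             _ ≤ 1 * cc (k + 2) := mul_le_mul_of_nonneg_right hRr1 hcc
             _ = _ := one_mul _
         have h5 : CH (Pool.Agent.H49.Ent.cond F.p B True) (zlab F i₁ K w P H) (Fam.pt F) ≤
             CV (k + 2) K := h2
         rw [hL, hδ]
         linarith only [hx0, hx4, h1, h3, h4, h5]
       have hκJ : 0 ≤ ψ * J := by positivity
       have hstab : Stb F.p (ψ * J) A (PlU k (1 / 2 ^ ⌊g₁ * J⌋₊) (Fam.pt F) F.d) := Or.inr hSpr
       have hnot : ¬ PlU k (1 / 2 ^ ⌊g₁ * J⌋₊) (Fam.pt F) F.d A := by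
         refine hSpr A (fun _ h => h) ?_
         have : Real.exp (-(ψ * J)) ≤ 1 := by
           rw [Real.exp_le_one_iff]
           linarith only [hl2, hδ0, hLρ0, j3]
         calc _ ≤ 1 * Pe F.p A := mul_le_mul_of_nonneg_right this hA0.le
           _ = _ := one_mul _
       obtain ⟨s1, s2⟩ := Stb.refine hpl hstab hnot hA0 hδ0 (fun B hBA hB => hres B hBA hB)
         (by linarith only [hl2, hδ0, hLρ0, j3])
       -- cleaning
       exact by
        obtain ⟨κ', hκ'⟩ : ∃ κ', κ' = ψ * J - (2 * δ + Real.log 2) := ⟨_, rfl⟩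
        rw [← hκ'] at s1
        have hκ'1 : ψ * J / 2 ≤ κ' := by rw [hκ']; linarith only [hl2, hLρ0, j3]
        have hκ'2 : 2 * Real.log 2 ≤ κ' := by linarith only [hl2, hδ0, hLρ0, j3, hκ']
        obtain ⟨c1, c2⟩ := Stb.clean hpl hκ'2 hA0 s1 s2 rfl
        obtain ⟨Nb, hNb⟩ : ∃ Nb : F.Ω → Prop, Nb = Pop (Pool.Agent.H49.Ent.cond F.p A True) F.d
          (fun ω => (Fam.pt F ω, L ω)) (fun D (s : (Fin (k + 2) → ℝ) × (Fin k → Fin (k + 2) → ℝ)) =>
            ∃ c : Fin k → ℝ, ∀ j, |D j - s.1 j - ∑ i, c i * s.2 i j| ≤ 1 / 2 ^ ⌊g₁ * J⌋₊)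
          (Real.exp (-(κ' / 2))) := ⟨_, rfl⟩
        rw [← hNb] at c1 c2
        obtain ⟨A', hA'⟩ : ∃ A' : F.Ω → Prop, A' = fun ω => A ω ∧ ¬ Nb ω := ⟨_, rfl⟩
        have c2' := c2
        rw [← hA'] at c2'
        have hPA' : Pe F.p A ≤ 2 * Pe F.p A' := by
          have d1 := Pe_diff c1
          rw [← hA'] at d1
          have d2 : Real.exp (-Real.log 2) = 1 / 2 := by
            rw [Real.exp_neg, Real.exp_log (by norm_num)]
            norm_num
          rw [d2] at d1
          linarith only [d1]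
        have hA'A : Sub A' A := by rw [hA']; exact fun _ h => h.1
        have hlaw : IsLaw (Pool.Agent.H49.Ent.cond F.p A' True) := isLaw_cond hpl (by linarith only [hA0, hPA'])
        obtain ⟨hTm, hV⟩ := hval A' hA'A hPA' hlaw
        -- fullness
        obtain ⟨ρ, hρ⟩ : ∃ ρ, ρ = Real.exp (-(κ' / 2)) := ⟨_, rfl⟩
        have e4 : (4 : ℝ) / 2 ^ (h + 2) = 1 / 2 ^ h := by
          rw [pow_add]
          field_simp
          norm_num
        exact by
         have hf := hfull J (F.res A' True hlaw) _ _ (zlab F i₁ K w P H) L w g (h + 2) Rr (τ' * J) ρ b1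
           hTm ?_ ?_ ?_ (by omega) (by rw [hg]) ?_
         rotate_left
         · -- the label is a function of the window
           intro ω ω' _ _ e
           have e1 : slam F w ω = slam F w ω' := e
           unfold zlab
           rw [e1]
           have e2 : F.c w ω = F.c w ω' := by
             unfold slam at e1
             simp only [Prod.mk.injEq, Fam.l] at e1
             obtain ⟨⟨a1, a2⟩, a3, a4⟩ := e1
             unfold Fam.c
             have : F.x1 w ω = F.x1 w ω' := by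
               funext i
               unfold Fam.x1
               rw [a1, a2, a4]
             rw [this, a3, a4]
           rw [e2]
         · intro ω ω' _ _ e
           rw [hL] at e
           exact (Prod.ext_iff.mp e).1
         · intro l hl ω ω' _ _ e
           rw [hL] at e
           exact congrFun (Prod.ext_iff.mp e).2 ⟨l, hl⟩
         · rw [e4, hρ, hh]
           exact c2'
         -- the end
         obtain ⟨L2, hL2⟩ : ∃ L2, L2 = Real.log 2 := ⟨_, rfl⟩
         obtain ⟨τ₁, hτ₁⟩ : ∃ τ₁, τ₁ = ((J : ℝ) - P) * L2 + 6 * ((k : ℝ) + 2) ^ 2 * (g * L2) +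
           Rr * ((k + 3) * (τ' * J) + (k + 2) ^ 2 * (g * L2) * ρ + C) + C := ⟨_, rfl⟩
         exact by
          have hL20 : 0 ≤ L2 := by rw [hL2]; exact hl2.le
          have hend := end_one (F.res A' True hlaw) i₁ h2w hJ2 (hPr.trans hrJ) hrJ G H hG hH
            (fun ω hω => hGH ω (hA'A ω (of_cond_pos hω))) (τ := τ₁) hTm (by positivity) (by
              have e1 : CH (F.res A' True hlaw).p ((F.res A' True hlaw).X J)
                  (fun ω => (zlab (F.res A' True hlaw) i₁ K w P H ω, (F.res A' True hlaw).W ω)) =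
                  CH (F.res A' True hlaw).p ((F.res A' True hlaw).X J)
                  (fun ω => (zlab F i₁ K w P H ω, (F.res A' True hlaw).W ω)) := rfl
              rw [e1, hτ₁]
              rw [← hL2] at hf ⊢
              have e3 : (((k + 2 : ℕ) : ℝ) - 1) = k + 1 := by push_cast; ring
              rw [e3]
              exact fin_arith hk hL20 hg0r.le b2r hf)
          refine arith (k := k) (J := J) (w := w) (P := P) (g := g) (Rr := Rr) (e := τ' * J) (ρ := ρ)
            (x := x) (g₁ := g₁) (R := R) (N := N) (τ := τ') (V := (F.res A' True hlaw).V J) (L2 := L2)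
            (KE' := KE (k + 2)) (CF' := CF (k + 2) K) (C := C) (τ₁ := τ₁) hk (by rw [hL2]; exact hl2.le)
            (by rw [hL2]; exact hl2') hJ0 hR hg₁0 hx0.le hx1 hwx (by positivity) hPx (by positivity) hg2
            hg0r.le (by positivity) hRr1 hRg (by rw [hρ]; positivity) ?_ hg₁R rfl hτ'0.le hτ'1 hC ?_
            hτ₁ hV ?_
          · refine small_rho hR hρ ?_
            rw [← hLρ]
            linarith only [hl2, hδ0, hLρ0, j3, hκ']
          · have := le_abs_self (CF (k + 2) K)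
            rw [hCst] at j1
            linarith only [j1, this]
          · have e5 : ((k + 2 : ℕ) : ℝ) = (k : ℝ) + 2 := by push_cast; ring
            rw [e5, ← hL2] at hend
            exact hend

end Pool.PB
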