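import Pool.Agent.H95.S6.H5O
import Pool.Agent.H40.S6.Ev

/-!
# (H5) in the rising case, from LEMMA D

`h5_rise : NATStmt → H5Stmt`.
-/

set_option autoImplicit false

namespace Pool.S6N

open Finset Real
open Pool.Agent.H49.Ent Pool.Agent.H32.Dense Pool.STK Pool.KA Pool.KSAT Pool.K2S Pool.PB Pool.KS6
  Pool.S6C Pool.Sel51

/-- The scale is large. -/
theorem j_large {κ l η C' c M J : ℝ} (hκ : 0 < κ) (hl : 0 < l) (hη : 0 < η) (hC' : 0 < C')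
    (hc : 0 < c)
    (h : 4 / (κ * l) + 8 / (η * (C' * l)) + 1 / l + 32 * |M| / (c * κ * l) ≤ J) :
    4 ≤ κ * l * J ∧ 8 ≤ η * (C' * l) * J ∧ 1 ≤ l * J ∧ 32 * |M| ≤ c * κ * l * J := by
  have q1 : 0 ≤ 4 / (κ * l) := by positivity
  have q2 : 0 ≤ 8 / (η * (C' * l)) := by positivity
  have q3 : 0 ≤ 1 / l := by positivity
  have q4 : 0 ≤ 32 * |M| / (c * κ * l) := by positivity
  have k : ∀ a b : ℝ, 0 < b → a / b ≤ J → a ≤ b * J := by
    intro a b hb hab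
    rw [div_le_iff₀ hb, mul_comm] at hab
    exact hab
  exact ⟨k 4 (κ * l) (by positivity) (by linarith), k 8 (η * (C' * l)) (by positivity) (by linarith),
    k 1 l hl (by linarith), k (32 * |M|) (c * κ * l) (by positivity) (by linarith)⟩

/-- **(H5)**: the rows of the normal position are not full, on events. -/
theorem h5_rise (hNat : NATStmt) : H5Stmt := by
  intro S a R h₁ i₀ c s₂ r D σ hC act K W v₁ t e₁ Q₀ P g v₀ v ρ a₀ α hLoc hvρ κ ϖ CZ C₂ hκ hκ1 hϖ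
    hCZ _
  have hc0 := hC.c0
  have hv0 := hLoc.v0
  have hρ0 := hLoc.ρ0
  have hPR := hLoc.pr P hLoc.row
  have hP0 : 0 < P := by linarith [hPR.half]
  have hP1 : P < 1 := hPR.lt1
  -- the constants
  obtain ⟨C', hC'⟩ : ∃ C', C' = (2 + v + ρ) * CZ + 40 := ⟨_, rfl⟩
  have hC'p : 0 < C' := by
    rw [hC']
    have : 0 ≤ (2 + v + ρ) * CZ := mul_nonneg (by linarith) hCZ.le
    linarith
  have hC'1 : CZ ≤ C' := by
    rw [hC']
    have : 0 ≤ (1 + v + ρ) * CZ := mul_nonneg (by linarith) hCZ.le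
    linarith
  obtain ⟨ε₁, hε₁⟩ : ∃ ε₁, ε₁ = c * κ / (64 * C') := ⟨_, rfl⟩
  have hε₁0 : 0 < ε₁ := by rw [hε₁]; positivity
  obtain ⟨ε₂, hε₂⟩ : ∃ ε₂, ε₂ = c * κ * ϖ / (64 * C') := ⟨_, rfl⟩
  have hε₂0 : 0 < ε₂ := by rw [hε₂]; positivity
  obtain ⟨X₁, hX₁, hrte⟩ := rte hC hP0 hP1 hLoc.rate (ϖ := ϖ / 4) (ε := ε₁) (by positivity) hε₁0
  obtain ⟨η, X₂, hη, hX₂, hldn⟩ := nat_unif hNat hC hLoc hε₂0
  obtain ⟨ε₀, hε₀⟩ : ∃ ε₀, ε₀ = min 1 (η * C' / 40) := ⟨_, rfl⟩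
  have hε₀0 : 0 < ε₀ := by rw [hε₀]; exact lt_min one_pos (by positivity)
  have hε₀1 : ε₀ ≤ 1 := by rw [hε₀]; exact min_le_left _ _
  have hε₀2 : ε₀ ≤ η * C' / 40 := by rw [hε₀]; exact min_le_right _ _
  obtain ⟨l₀, hl₀⟩ : ∃ l₀, l₀ = min (X₁ / C') (X₂ / C') := ⟨_, rfl⟩
  have hl₀0 : 0 < l₀ := by rw [hl₀]; exact lt_min (by positivity) (by positivity)
  have hl₀1 : l₀ ≤ X₁ / C' := by rw [hl₀]; exact min_le_left _ _
  have hl₀2 : l₀ ≤ X₂ / C' := by rw [hl₀]; exact min_le_right _ _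
  refine ⟨ε₀, l₀, hε₀0, hl₀0, fun ε l hε hεε hl hll N u hz => ?_⟩
  have hX'0 : 0 < C' * l := by positivity
  have hX'1 : C' * l ≤ X₁ := by
    have := hll.trans hl₀1
    rw [le_div_iff₀ hC'p, mul_comm] at this
    exact this
  have hX'2 : C' * l ≤ X₂ := by
    have := hll.trans hl₀2
    rw [le_div_iff₀ hC'p, mul_comm] at this
    exact this
  have hzn := hz.zon
  have hel : ε * l ≤ l := by
    have h1 : ε * l ≤ 1 * l := mul_le_mul_of_nonneg_right (hεε.trans hε₀1) hl.le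
    rwa [one_mul] at h1
  have heη : 40 * (ε * l) ≤ η * (C' * l) := by
    have h1 : ε ≤ η * C' / 40 := hεε.trans hε₀2
    have h2 : ε * l ≤ η * C' / 40 * l := mul_le_mul_of_nonneg_right h1 hl.le
    have h3 : 40 * (η * C' / 40 * l) = η * (C' * l) := by ring
    linarith
  have hCl : CZ * l ≤ C' * l := mul_le_mul_of_nonneg_right hC'1 hl.le
  have hrot : ∀ j ≤ N, 0 ≤ (σ 1).rot (u j) := by
    intro j hj
    have hp0 : 0 < u j := by
      have h1 := hzn.posR hj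
      exact_mod_cast h1
    have hp1 : (u j : ℝ) ≤ u 0 := hzn.antiR (Nat.zero_le j) hj
    have hp2 : u j ≤ 1 := by
      have h2 : u j ≤ u 0 := by exact_mod_cast hp1
      exact h2.trans hzn.lt1.le
    exact hC.rot_nn hp0.le hp2
  have hA1 := hrte (C' * l) hX'0 hX'1
  have hA2 := Clp.ev (hldn (C' * l) hX'0 hX'2 (u 0) (hz.top.trans hCl)) (ϖ := 1 / 4) (by norm_num)
  obtain ⟨M, hM⟩ : ∃ M, M = h5K / ϖ + h5C 64 64 := ⟨_, rfl⟩
  obtain ⟨J₂, hJ₂⟩ := exists_nat_ge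
    (4 / (κ * l) + 8 / (η * (C' * l)) + 1 / l + 32 * |M| / (c * κ * l))
  refine Clp.mono (J₂ := J₂) ((hA1.and hA2).and hC.pos) ?_
  rintro J hJ F A ⟨⟨h1, h2⟩, hpA⟩ B hBA hB τ y z al nu k b hm Vx Hx Rx - - - j hj1 hjN w q X
    hX hwl hwu V H hV hVH h2l hVx hHx hRx hPJ i hi E hE
  obtain ⟨k1, k2, k3, k4⟩ := j_large hκ hl hη hC'p hc0 (hJ₂.trans (Nat.cast_le.2 hJ))
  rw [hM] at k4
  have hVx1 : V + X ≤ Vx := by exact_mod_cast hVx
  have hHx1 : H + X ≤ Hx := by exact_mod_cast hHx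
  have hRx1 : V + H + X ≤ Rx := by exact_mod_cast hRx
  have hlab := lab_top hzn hrot heη k2
  have hNL := (nl_top hm).mono hlab.1 hlab.2
  have h2' := h2 B hBA (by linarith) τ (Finite.injective_iff_bijective.1 hm.inj) hm.i0 y hNL
    Unit (fun _ => ()) ⟨fun _ _ _ _ _ => rfl, fun _ _ _ _ _ => rfl⟩
  exact h5_one hzn hrot hc0 hκ hκ1 hϖ hCZ hl hvρ hC' hel hz.top hz.bot hε₁ hε₂ hpA hBA hB hm k1 k3
    k4 (fun E hEA hpE P₁ P₂ hP hP1 hP2 => h1 E hEA hpE P₁ P₂ hP hP1 hP2) h2' hj1 hjN hX hwl hwu hV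
    hVH h2l hVx1 hHx1 hRx1 hPJ rfl hi hE

end Pool.S6N
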