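import Pool.Agent.H23.S6E.Vdf2
import Pool.Agent.H97.S6.H4R

/-!
# The rows of the normal position, from the deficit of the plank directions

`h5_core`: the entropy of a block of rows of the normal position in the exact frame, given the lower
rows, a context of the window and the generalised time, under the law conditioned on a large event.
The deficit is the one of a static box whose frame is close to the exact frame up to the units of
the box.
-/

set_option autoImplicit false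

namespace Pool.S6N

open Finset Real
open Pool.Agent.H49.Ent Pool.Agent.H32.Dense Pool.STK Pool.KA Pool.KSAT Pool.K2S

variable {J : ℕ}

/-- The levels of the velocities of the context. -/
theorem cv_vpr (w q V H : ℕ) : vpr w (q + w) (q + V + w) (q + (V + H) + w) = cv q V H := by
  funext i
  fin_cases i
  · exact Nat.add_sub_cancel q w
  · exact Nat.add_sub_cancel (q + V) w
  · exact Nat.add_sub_cancel (q + (V + H)) w

/-- The two forms of the context. -/
theorem ctx_eq (F : Fam 3 J) (σ : Fin 3 → Fin 3) (w q V H : ℕ) (a s t : F.Ω → ℝ) :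
    F.ctx σ w (q + w) (q + V + w) (q + (V + H) + w) a s t = ctx F σ w q V H a s t := by
  unfold Fam.ctx ctx
  rw [cv_vpr]
  rfl

section abs

variable {Ω S T U : Type} [Fintype Ω] {p : Ω → ℝ}

/-- A variable more in the condition. -/
theorem CH_add_cond (h0 : ∀ ω, 0 ≤ p ω) (X : Ω → S) (Y : Ω → T) (Z : Ω → U) :
    CH p X Z ≤ CH p X (fun ω => (Y ω, Z ω)) + CH p Y Z := by
  have h1 := CH_le_add h0 X Y Z
  linarith

/-- A number on a grid, close to a function of the condition. -/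
theorem CH_grid_near (hp : IsLaw p) {n : ℕ} {x : Ω → ℝ} (hx : ∀ ω, ∃ z : ℤ, x ω = z / 2 ^ n)
    (W : Ω → S) (y : Ω → ℝ) (hy : Det p W y) {D : ℝ} (h : ∀ ω, 0 < p ω → |x ω - y ω| ≤ D / 2 ^ n) :
    CH p x W ≤ Real.log (2 * (2 * D) + 1) := by
  have h0 := hp.nonneg
  choose z hz using hx
  have e1 : CH p x W ≤ CH p z W := by
    refine CH_mono_left h0 ?_
    intro ω ω' _ _ e
    have e2 : z ω = z ω' := (Prod.ext_iff.mp e).1
    rw [hz, hz, e2]
  refine e1.trans ?_
  have key : ∀ ω ω', 0 < p ω → 0 < p ω' → W ω = W ω' →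
      ∀ _ : Fin 1, |((z ω - z ω' : ℤ) : ℝ)| ≤ 2 * D := by
    intro ω ω' hω hω' e _
    have h1 := h ω hω
    have h2 := h ω' hω'
    rw [← hy ω ω' hω hω' e] at h2
    have h3 : |x ω - x ω'| ≤ D / 2 ^ n + D / 2 ^ n := by
      have e3 : x ω - x ω' = (x ω - y ω) - (x ω' - y ω) := by ring
      rw [e3]
      exact (abs_sub _ _).trans (add_le_add h1 h2)
    rw [hz, hz, ← sub_div, abs_div, abs_of_pos (by positivity : (0 : ℝ) < 2 ^ n), ← add_div,
      div_le_div_iff_of_pos_right (by positivity)] at h3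
    push_cast
    linarith
  have h2 := Plk.CH_vec_const (m := 1) hp (fun ω _ => z ω) W (c := 2 * D)
    (fun ω ω' h1 h2 h3 k => key ω ω' h1 h2 h3 k)
  have h3 : CH p z W ≤ CH p (fun ω (_ : Fin 1) => z ω) W :=
    CH_mono_left h0 fun ω ω' _ _ h => congrFun (Prod.ext_iff.mp h).1 0
  refine h3.trans (h2.trans (le_of_eq ?_))
  push_cast
  ring

end abs

section fam3

variable {F : Fam 3 J} {A : F.Ω → Prop} {σ : Fin 3 → Fin 3} {w q V H X : ℕ} {D B : ℝ}
  {a s t a' s' t' a'' t'' : F.Ω → ℝ}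

/-- The constant of the change of the box. -/
noncomputable def h5C (D B : ℝ) : ℝ :=
  2 * Real.log (2 * (2 * D) + 1) + (3 : ℕ) * Real.log (12 * (2 * D) + 3) +
    2 * Real.log (2 * (D + 2) + 1) + (Vd.K1 B + Vd.K2 B)

/-- **(H5)** The rows of the normal position in the exact frame, from the entropy of the positions
and the deficit of a static box with a rounded frame. -/
theorem h5_core (hσ : Function.Bijective σ) (hF : Frg F A w V H D a s t a' s' t') (hw : w ≤ J)
    (hQ : IsLaw (Pool.Agent.H49.Ent.cond F.p A True)) (hD : 1 ≤ D) (hB : 1 ≤ B)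
    (ga : ∀ ω, ∃ z : ℤ, a'' ω = z / 2 ^ V) (gt' : ∀ ω, ∃ z : ℤ, t'' ω = z / 2 ^ (V + H + X))
    (na : ∀ ω, A ω → |a'' ω - a ω| ≤ D / 2 ^ V)
    (nt : ∀ ω, A ω → |t'' ω - t' ω| ≤ D / 2 ^ (V + H + X))
    (hb : ∀ ω, A ω → |a'' ω| ≤ B ∧ |s' ω| ≤ B ∧ |t'' ω| ≤ B)
    {ϖ : ℝ} (hϖ : 0 < ϖ) {E : F.Ω → Prop} (hE : ϖ ≤ Pe (Pool.Agent.H49.Ent.cond F.p A True) E)
    {x y : ℕ} (hxy : x ≤ y) (hy : y ≤ X) :
    CH (Pool.Agent.H49.Ent.cond (Pool.Agent.H49.Ent.cond F.p A True) E True)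
        (Uni.dg (q + (V + H) + w + y) (ps F σ a' s' t'))
        (fun ω => (Uni.dg (q + (V + H) + w + x) (ps F σ a' s' t') ω,
          (ctx F σ w q V H a s t ω, gt F a' s' t' ω))) ≤
      CH (Pool.Agent.H49.Ent.cond (Pool.Agent.H49.Ent.cond F.p A True) E True)
        (F.X (q + (V + H) + w + y)) (fun ω => (F.X (q + (V + H) + w + x) ω, F.W ω)) -
        2 * ((y : ℝ) - x) * Real.log 2 +
        (F.vdf (Pool.Agent.H49.Ent.cond F.p A True) σ (q + w) (q + V + w)
          (q + (V + H) + w + y) a'' s' t'' F.W + (Vd.K2 B + Real.log 2)) / ϖ + h5C D B := by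
  have hE0 : 0 < Pe (Pool.Agent.H49.Ent.cond F.p A True) E := lt_of_lt_of_le hϖ hE
  obtain ⟨p, hp⟩ : ∃ p, p = Pool.Agent.H49.Ent.cond F.p A True := ⟨_, rfl⟩
  have hA : ∀ ω, 0 < p ω → A ω := fun ω hω => by
    rw [hp] at hω
    exact of_eq_true ((cond_pos_iff F.isLaw.nonneg A True ω).1 hω).2
  rw [← hp] at hQ hE hE0 ⊢
  obtain ⟨p', hp'⟩ : ∃ p', p' = Pool.Agent.H49.Ent.cond p E True := ⟨_, rfl⟩
  have hl : IsLaw p' := by
    rw [hp']
    exact isLaw_cond hQ hE0
  have h0 := hl.nonneg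
  have hA' : ∀ ω, 0 < p' ω → A ω := fun ω hω => by
    rw [hp'] at hω
    exact hA ω ((cond_pos_iff hQ.nonneg E True ω).1 hω).1
  have hσi := hσ.injective
  -- the last step: the static boxes
  have key := Vd.h5_gen (F := F) (p := p) (σ := σ) (a := a'') (s := s') (t := t'') (r := q + w)
    (U := q + V + w) (P := q + (V + H) + w + x) (r' := q + w) (U' := q + V + w)
    (P' := q + (V + H) + w + y) hQ hσ hB le_rfl le_rfl (by omega) (by omega) (by omega)
    (by omega) (by omega) (fun ω hω => hb ω (hA ω hω)) F.W E hϖ hE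
  rw [← hp'] at key ⊢
  have e0 : ((((q + w : ℕ) : ℝ) - ((q + w : ℕ) : ℝ)) + (((q + V + w : ℕ) : ℝ) -
      ((q + V + w : ℕ) : ℝ)) - 2 * (((q + (V + H) + w + y : ℕ) : ℝ) -
      ((q + (V + H) + w + x : ℕ) : ℝ))) * Real.log 2 = -(2 * ((y : ℝ) - x) * Real.log 2) := by
    push_cast
    ring
  rw [e0] at key
  -- the condition
  obtain ⟨G, hG⟩ : ∃ G : F.Ω → _, G = fun ω => (ctx F σ w q V H a s t ω, gt F a' s' t' ω) :=
    ⟨_, rfl⟩
  obtain ⟨S0, hS0⟩ : ∃ S0, S0 = F.sbx σ (q + w) (q + V + w) (q + (V + H) + w) a'' s' t'' :=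
    ⟨_, rfl⟩
  have hGe : ∀ ω ω', G ω = G ω' → ctx F σ w q V H a s t ω = ctx F σ w q V H a s t ω' ∧
      gt F a' s' t' ω = gt F a' s' t' ω' := by
    intro ω ω' e
    rw [hG] at e
    exact Prod.ext_iff.mp e
  -- the frame of the box
  have c1 : CH p' a'' G ≤ Real.log (2 * (2 * D) + 1) := by
    refine CH_grid_near hl ga G a ?_ fun ω hω => na ω (hA' ω hω)
    intro ω ω' _ _ e
    exact (ctx_frm hσi (hGe ω ω' e).1).1
  have c2 : CH p' t'' (fun ω => (a'' ω, G ω)) ≤ Real.log (2 * (2 * D) + 1) := by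
    refine CH_grid_near hl gt' _ t' ?_ fun ω hω => nt ω (hA' ω hω)
    intro ω ω' _ _ e
    exact (gt_ext (hGe ω ω' (Prod.ext_iff.mp e).2).2).2.2.2
  -- the box
  have c3 : CH p' S0 (fun ω => (t'' ω, (a'' ω, G ω))) ≤ (3 : ℕ) * Real.log (12 * (2 * D) + 3) := by
    rw [hS0]
    have pr : (2 : ℝ) ^ (q + w) / 2 ^ (q + V + w) = 1 / 2 ^ V := by
      rw [show q + V + w = (q + w) + V by omega, pow_add _ (q + w) V]
      field_simp
    have pu : (2 : ℝ) ^ (q + V + w) / 2 ^ (q + (V + H) + w) = 1 / 2 ^ H := by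
      rw [show q + (V + H) + w = (q + V + w) + H by omega, pow_add _ (q + V + w) H]
      field_simp
    have pn : (2 : ℝ) ^ (q + w) / 2 ^ (q + (V + H) + w) = 1 / 2 ^ (V + H) := by
      rw [show q + (V + H) + w = (q + w) + (V + H) by omega, pow_add _ (q + w) (V + H)]
      field_simp
    refine Box.CH_sbx_of_ctx (a := a) (s := s) (t := t) hl (w := w) hw (by linarith)
      (by omega) (by omega) (by omega) le_rfl le_rfl le_rfl ?_ _ ?_
    · intro ω hω
      have hAω := hA' ω hω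
      rw [mul_div_assoc, mul_div_assoc, mul_div_assoc, pr, pu, pn, mul_one_div, mul_one_div,
        mul_one_div]
      refine ⟨?_, ?_, ?_⟩
      · refine (na ω hAω).trans (div_le_div_of_nonneg_right (by linarith) (by positivity))
      · refine (hF.cs ω hAω).trans (div_le_div_of_nonneg_right (by linarith) (by positivity))
      · have g1 := hF.ct ω hAω
        have g2 := nt ω hAω
        have g3 : D / (2 : ℝ) ^ (V + H + X) ≤ D / 2 ^ (V + H) :=
          div_le_div_of_nonneg_left (by linarith) (by positivity)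
            (pow_le_pow_right₀ (by norm_num) (by omega))
        have e1 : t'' ω - t ω + (s' ω - s ω) * a ω =
          (t' ω - t ω + (s' ω - s ω) * a ω) + (t'' ω - t' ω) := by ring
        rw [e1]
        refine (abs_add_le _ _).trans ?_
        have e2 : 2 * D / (2 : ℝ) ^ (V + H) = D / 2 ^ (V + H) + D / 2 ^ (V + H) := by ring
        rw [e2]
        exact add_le_add g1 (g2.trans g3)
    · intro ω ω' _ _ e
      have e1 := Prod.ext_iff.mp e
      have e2 := Prod.ext_iff.mp e1.2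
      obtain ⟨e3, e4⟩ := hGe ω ω' e2.2
      obtain ⟨e5, e6, e7, e8⟩ := gt_ext e4
      rw [ctx_eq]
      exact ⟨e3, e5, e2.1, e7, e1.1⟩
  -- first step: the condition
  obtain ⟨Z, hZ⟩ : ∃ Z : F.Ω → _, Z = fun ω => (S0 ω, (t'' ω, (a'' ω, G ω))) := ⟨_, rfl⟩
  have s1 : CH p' (Uni.dg (q + (V + H) + w + y) (ps F σ a' s' t'))
      (fun ω => (Uni.dg (q + (V + H) + w + x) (ps F σ a' s' t') ω, G ω)) ≤
      CH p' (Uni.dg (q + (V + H) + w + y) (ps F σ a' s' t'))
        (fun ω => (Uni.dg (q + (V + H) + w + x) (ps F σ a' s' t') ω, Z ω)) +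
        (2 * Real.log (2 * (2 * D) + 1) + (3 : ℕ) * Real.log (12 * (2 * D) + 3)) := by
    have d1 := CH_add_cond h0 (Uni.dg (q + (V + H) + w + y) (ps F σ a' s' t'))
      (fun ω => (S0 ω, (t'' ω, a'' ω)))
      (fun ω => (Uni.dg (q + (V + H) + w + x) (ps F σ a' s' t') ω, G ω))
    have d2 : CH p' (fun ω => (S0 ω, (t'' ω, a'' ω)))
        (fun ω => (Uni.dg (q + (V + H) + w + x) (ps F σ a' s' t') ω, G ω)) ≤
        CH p' (fun ω => (S0 ω, (t'' ω, a'' ω))) G :=
      CH_mono_cond h0 fun _ _ _ _ e => (Prod.ext_iff.mp e).2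
    have d3 := CH_chain h0 S0 (fun ω => (t'' ω, a'' ω)) G
    have d4 := CH_chain h0 t'' a'' G
    have d5 : CH p' S0 (fun ω => ((t'' ω, a'' ω), G ω)) ≤
        CH p' S0 (fun ω => (t'' ω, (a'' ω, G ω))) :=
      CH_mono_cond h0 fun _ _ _ _ e => by
        have e1 := Prod.ext_iff.mp e
        have e2 := Prod.ext_iff.mp e1.1
        exact Prod.ext e2.1 (Prod.ext e2.2 e1.2)
    have d6 : CH p' (Uni.dg (q + (V + H) + w + y) (ps F σ a' s' t'))
        (fun ω => ((S0 ω, (t'' ω, a'' ω)),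
          (Uni.dg (q + (V + H) + w + x) (ps F σ a' s' t') ω, G ω))) ≤
        CH p' (Uni.dg (q + (V + H) + w + y) (ps F σ a' s' t'))
          (fun ω => (Uni.dg (q + (V + H) + w + x) (ps F σ a' s' t') ω, Z ω)) := by
      refine CH_mono_cond h0 fun _ _ _ _ e => ?_
      have e1 := Prod.ext_iff.mp e
      have e2 := Prod.ext_iff.mp e1.1
      have e3 := Prod.ext_iff.mp e2.2
      have e4 := Prod.ext_iff.mp e1.2
      rw [hZ]
      exact Prod.ext e4.1 (Prod.ext e2.1 (Prod.ext e3.1 (Prod.ext e3.2 e4.2)))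
    have d7 : CH p' (fun ω => (t'' ω, a'' ω)) G =
        CH p' a'' G + CH p' t'' (fun ω => (a'' ω, G ω)) := by
      linarith
    linarith
  -- second step: the two normal positions
  have s2 : CH p' (Uni.dg (q + (V + H) + w + y) (ps F σ a' s' t'))
        (fun ω => (Uni.dg (q + (V + H) + w + x) (ps F σ a' s' t') ω, Z ω)) ≤
      CH p' (Uni.dg (q + (V + H) + w + y) (ps F σ a'' s' t''))
        (fun ω => (Uni.dg (q + (V + H) + w + x) (ps F σ a'' s' t'') ω, (S0 ω, F.W ω))) +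
        2 * Real.log (2 * (D + 2) + 1) := by
    have hdet : Det p' Z (fun ω => (S0 ω, F.W ω)) := by
      intro ω ω' _ _ e
      rw [hZ] at e
      have e1 := Prod.ext_iff.mp e
      have e2 := Prod.ext_iff.mp e1.2
      have e3 := Prod.ext_iff.mp e2.2
      obtain ⟨e4, e5⟩ := hGe ω ω' e3.2
      refine Prod.ext e1.1 (Prod.ext (gt_ext e5).1 ?_)
      exact (Box.mlb_ext e4).2.2.2.2
    have hk : Det p' Z (fun ω => (t' ω - t'' ω) * ((⌊(2 : ℝ) ^ (q + w) *
        Vd.co F σ a'' s' t'' 0 ω⌋ : ℝ) / 2 ^ (q + w))) := by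
      intro ω ω' _ _ e
      rw [hZ] at e
      have e1 := Prod.ext_iff.mp e
      have e2 := Prod.ext_iff.mp e1.2
      have e3 := Prod.ext_iff.mp e2.2
      obtain ⟨e4, e5⟩ := hGe ω ω' e3.2
      have e6 : S0 ω = S0 ω' := e1.1
      rw [hS0] at e6
      have e7 := (Vd.sbx_ext.1 e6).2.1
      have e8 : t'' ω = t'' ω' := e2.1
      have e9 : t' ω = t' ω' := (gt_ext e5).2.2.2
      simp only [e7, e8, e9]
    have key2 := Sel.rows_le hl Z (fun ω => (S0 ω, F.W ω)) hdet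
      (x := ps F σ a'' s' t'') (x' := ps F σ a' s' t') hk (K := D) (by linarith) (r := 0)
      (a := q + (V + H) + w + x) (b := q + (V + H) + w + y) (by omega) (by
        intro ω hω
        have hAω := hA' ω hω
        have e1 : ps F σ a'' s' t'' ω = F.x ω (σ 2) - s' ω * F.x ω (σ 1) - t'' ω * F.x ω (σ 0) :=
          Box.mco_tfr2 σ (a'' ω) (s' ω) (t'' ω) (F.x ω)
        have e2 : ps F σ a' s' t' ω = F.x ω (σ 2) - s' ω * F.x ω (σ 1) - t' ω * F.x ω (σ 0) :=
          Box.mco_tfr2 σ (a' ω) (s' ω) (t' ω) (F.x ω)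
        have e3 : Vd.co F σ a'' s' t'' 0 ω = F.x ω (σ 0) :=
          Box.mco_tfr0 σ (a'' ω) (s' ω) (t'' ω) (F.x ω)
        rw [e1, e2, e3, pow_zero, one_mul]
        have e4 : F.x ω (σ 2) - s' ω * F.x ω (σ 1) - t'' ω * F.x ω (σ 0) -
            (F.x ω (σ 2) - s' ω * F.x ω (σ 1) - t' ω * F.x ω (σ 0)) -
            (t' ω - t'' ω) * ((⌊(2 : ℝ) ^ (q + w) * F.x ω (σ 0)⌋ : ℝ) / 2 ^ (q + w)) =
            -((t'' ω - t' ω) * (F.x ω (σ 0) -
              (⌊(2 : ℝ) ^ (q + w) * F.x ω (σ 0)⌋ : ℝ) / 2 ^ (q + w))) := by ring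
        rw [e4, abs_neg, abs_mul]
        have g1 := nt ω hAω
        have g2 : |F.x ω (σ 0) - (⌊(2 : ℝ) ^ (q + w) * F.x ω (σ 0)⌋ : ℝ) / 2 ^ (q + w)| ≤
            1 / 2 ^ (q + w) := by
          rw [abs_sub_comm]
          exact floor_div_near _ _
        have g3 := mul_le_mul g1 g2 (abs_nonneg _) (by positivity)
        have g4 : D / 2 ^ (V + H + X) * (1 / 2 ^ (q + w)) * 2 ^ (q + (V + H) + w + y) ≤ D := by
          have g5 : (2 : ℝ) ^ (q + (V + H) + w + y) ≤ 2 ^ (V + H + X) * 2 ^ (q + w) := by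
            rw [← pow_add]
            exact pow_le_pow_right₀ (by norm_num) (by omega)
          calc D / 2 ^ (V + H + X) * (1 / 2 ^ (q + w)) * 2 ^ (q + (V + H) + w + y)
              ≤ D / 2 ^ (V + H + X) * (1 / 2 ^ (q + w)) * (2 ^ (V + H + X) * 2 ^ (q + w)) :=
                mul_le_mul_of_nonneg_left g5 (by positivity)
            _ = D := by field_simp
        exact (mul_le_mul_of_nonneg_right g3 (by positivity)).trans g4)
    rw [zero_add, zero_add] at key2
    exact key2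
  -- third step: the static boxes
  have s3 : CH p' (Uni.dg (q + (V + H) + w + y) (ps F σ a'' s' t''))
        (fun ω => (Uni.dg (q + (V + H) + w + x) (ps F σ a'' s' t'') ω, (S0 ω, F.W ω))) ≤
      CH p' (F.sbx σ (q + w) (q + V + w) (q + (V + H) + w + y) a'' s' t'')
        (fun ω => (F.sbx σ (q + w) (q + V + w) (q + (V + H) + w + x) a'' s' t'' ω, F.W ω)) := by
    have d1 : CH p' (Uni.dg (q + (V + H) + w + y) (ps F σ a'' s' t''))
        (fun ω => (Uni.dg (q + (V + H) + w + x) (ps F σ a'' s' t'') ω, (S0 ω, F.W ω))) ≤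
        CH p' (Uni.dg (q + (V + H) + w + y) (ps F σ a'' s' t''))
          (fun ω => (F.sbx σ (q + w) (q + V + w) (q + (V + H) + w + x) a'' s' t'' ω, F.W ω)) := by
      refine CH_mono_cond h0 fun ω ω' _ _ e => ?_
      have e1 := Prod.ext_iff.mp e
      have e2 := Prod.ext_iff.mp e1.2
      have e3 : S0 ω = S0 ω' := e2.1
      rw [hS0] at e3
      have e4 := Vd.sbx_ext.1 e3
      refine Prod.ext ?_ e2.2
      rw [Vd.sbx_ext]
      exact ⟨e4.1, e4.2.1, e4.2.2.1, e1.1⟩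
    refine d1.trans (CH_mono_left h0 ?_)
    intro ω ω' _ _ e
    exact (Vd.sbx_ext.1 (Prod.ext_iff.mp e).1).2.2.2
  have fin : CH p' (Uni.dg (q + (V + H) + w + y) (ps F σ a' s' t'))
      (fun ω => (Uni.dg (q + (V + H) + w + x) (ps F σ a' s' t') ω, G ω)) ≤
      CH p' (F.X (q + (V + H) + w + y)) (fun ω => (F.X (q + (V + H) + w + x) ω, F.W ω)) -
        2 * ((y : ℝ) - x) * Real.log 2 +
        (F.vdf p σ (q + w) (q + V + w)
          (q + (V + H) + w + y) a'' s' t'' F.W + (Vd.K2 B + Real.log 2)) / ϖ + h5C D B := by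
    have f1 := s3.trans key
    obtain ⟨A1, hA1⟩ : ∃ A1, A1 = CH p' (Uni.dg (q + (V + H) + w + y) (ps F σ a'' s' t''))
        (fun ω => (Uni.dg (q + (V + H) + w + x) (ps F σ a'' s' t'') ω, (S0 ω, F.W ω))) := ⟨_, rfl⟩
    rw [← hA1] at s2 f1
    obtain ⟨A2, hA2⟩ : ∃ A2, A2 = CH p' (F.X (q + (V + H) + w + y))
      (fun ω => (F.X (q + (V + H) + w + x) ω, F.W ω)) := ⟨_, rfl⟩
    rw [← hA2] at f1 ⊢
    obtain ⟨A3, hA3⟩ : ∃ A3, A3 = (F.vdf p σ (q + w) (q + V + w)
          (q + (V + H) + w + y) a'' s' t'' F.W + (Vd.K2 B + Real.log 2)) / ϖ := ⟨_, rfl⟩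
    rw [← hA3] at f1 ⊢
    unfold h5C
    linarith
  rw [hG] at fin
  exact fin

end fam3

end Pool.S6N
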