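import Pool.Agent.H95.S6.H5M
import Pool.Agent.H23.S6E.Ld2
import Pool.Agent.H95.S6.Rte
import Pool.Agent.H97.S6.Lev
import Pool.Agent.H97.S6.Inp
import Pool.Agent.H50.K2.Piece

/-!
# (H5) in the rising case, from LEMMA D

`h5_rise : NATStmt → H5Stmt`. The levels of the zone, the place of the base velocity, the sum of the
errors; the class theorem.
-/

set_option autoImplicit false

namespace Pool.S6N

open Finset Real
open Pool.Agent.H49.Ent Pool.Agent.H32.Dense Pool.STK Pool.KA Pool.KSAT Pool.K2S Pool.PB Pool.KS6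
  Pool.S6C Pool.Sel51

section arith

/-- The place of the base velocity: all levels are natural or finer at the window `u₀`. -/
theorem lv_arith {J v ρ v₀ g W ds dj e l CZ V H rot th u₀ q w P q' : ℝ} (hJ : 0 < J)
    (hv0 : 0 ≤ v) (hvρ : v < ρ) (he : 0 < e) (hel : e ≤ l) (hCZ : 0 < CZ) (k3 : 1 ≤ l * J)
    (au1 : v₀ + v * ds - e ≤ rot) (au2 : rot ≤ v₀ + v * ds + e)
    (at1 : g + (1 + ρ) * ds - e ≤ th) (hu : u₀ = W + ds) (ds1 : |ds| ≤ CZ * l)
    (dj1 : |dj| ≤ CZ * l) (h2l : 2 * l ≤ (ρ - v) * (ds - dj))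
    (fV : (v₀ + v * dj - 10 * e) * J - 1 ≤ V) (fVv : V ≤ (v₀ + v * dj + e) * J)
    (fVr : V ≤ rot * J) (fR : V + H ≤ (g - W + ρ * dj - 20 * e) * J)
    (fR' : (g - W + ρ * dj - 20 * e) * J - 1 ≤ V + H) (hPJ : |q + (V + H) + w - P * J| ≤ CZ * l * J)
    (hq' : q' * J = q + V + w - u₀ * J - rot * J) :
    |q' - (P - g)| ≤ ((2 + v + ρ) * CZ + 40) * l ∧ (u₀ + q') * J ≤ q + w ∧
      (u₀ + rot + q') * J ≤ q + V + w ∧
      ∀ x : ℝ, x ≤ l * J → q + (V + H) + w + x ≤ (th + q') * J := by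
  have hH1 : H ≤ (g - W - v₀ + (ρ - v) * dj - 10 * e) * J + 1 := by
    have e2 : (g - W - v₀ + (ρ - v) * dj - 10 * e) * J + 1 =
      (g - W + ρ * dj - 20 * e) * J - ((v₀ + v * dj - 10 * e) * J - 1) := by ring
    rw [e2]
    linarith
  have hH2 : (g - W - v₀ + (ρ - v) * dj - 21 * e) * J - 1 ≤ H := by
    have e2 : (g - W - v₀ + (ρ - v) * dj - 21 * e) * J - 1 =
      ((g - W + ρ * dj - 20 * e) * J - 1) - (v₀ + v * dj + e) * J := by ring
    rw [e2]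
    linarith
  have r1 : rot * J ≤ (v₀ + v * ds + e) * J := mul_le_mul_of_nonneg_right au2 hJ.le
  have r2 : (v₀ + v * ds - e) * J ≤ rot * J := mul_le_mul_of_nonneg_right au1 hJ.le
  have r3 : (g + (1 + ρ) * ds - e) * J ≤ th * J := mul_le_mul_of_nonneg_right at1 hJ.le
  have r4 : e * J ≤ l * J := mul_le_mul_of_nonneg_right hel hJ.le
  have r5 : 0 < e * J := mul_pos he hJ
  have hl : 0 ≤ l := by linarith
  refine ⟨?_, ?_, ?_, fun x hx => ?_⟩
  · have a3 : |(1 + v) * ds| ≤ (1 + v) * (CZ * l) := by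
      rw [abs_mul, abs_of_nonneg (by linarith : 0 ≤ 1 + v)]
      exact mul_le_mul_of_nonneg_left ds1 (by linarith)
    have a4 : |(ρ - v) * dj| ≤ (ρ - v) * (CZ * l) := by
      rw [abs_mul, abs_of_nonneg (by linarith : 0 ≤ ρ - v)]
      exact mul_le_mul_of_nonneg_left dj1 (by linarith)
    have a5 : |(1 + v) * ds + (ρ - v) * dj| ≤ (1 + ρ) * (CZ * l) := by
      refine (abs_add_le _ _).trans ((add_le_add a3 a4).trans (le_of_eq ?_))
      ring
    have g5 := abs_le.1 a5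
    have g6 := mul_le_mul_of_nonneg_right g5.1 hJ.le
    have g7 := mul_le_mul_of_nonneg_right g5.2 hJ.le
    obtain ⟨h4, h5⟩ := abs_le.1 hPJ
    have h3 : |(q' - (P - g)) * J| ≤ ((2 + v + ρ) * CZ + 40) * l * J := by
      have e1 : (q' - (P - g)) * J = (q + (V + H) + w - P * J) - H + g * J - (W + ds) * J -
          rot * J := by
        rw [sub_mul, hq', hu]
        ring
      have m7 : ((2 + v + ρ) * CZ + 40) * l * J = (1 + ρ) * (CZ * l) * J + CZ * l * J +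
          v * (CZ * l * J) + 40 * (l * J) := by ring
      have m8 : 0 ≤ v * (CZ * l * J) := by positivity
      rw [e1, m7, abs_le]
      constructor
      · have m1 : (g - W - v₀ + (ρ - v) * dj - 10 * e) * J + (v₀ + v * ds + e) * J =
            g * J - (W + ds) * J + ((1 + v) * ds + (ρ - v) * dj) * J - 9 * (e * J) := by ring
        linarith
      · have m1 : (g - W - v₀ + (ρ - v) * dj - 21 * e) * J + (v₀ + v * ds - e) * J =
            g * J - (W + ds) * J + ((1 + v) * ds + (ρ - v) * dj) * J - 22 * (e * J) := by ring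
        have m2 : (-((1 + ρ) * (CZ * l))) * J = -((1 + ρ) * (CZ * l) * J) := by ring
        linarith
    rw [abs_mul, abs_of_pos hJ] at h3
    exact le_of_mul_le_mul_right h3 hJ
  · have e1 : (u₀ + q') * J = q + V + w - rot * J := by
      rw [add_mul, hq']
      ring
    rw [e1]
    linarith
  · have e1 : (u₀ + rot + q') * J = q + V + w := by
      rw [add_mul, add_mul, hq']
      ring
    rw [e1]
  · have e1 : (th + q') * J = th * J + (q + V + w - (W + ds) * J - rot * J) := by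
      rw [add_mul, hq', hu]
    have m1 : (g + (1 + ρ) * ds - e) * J - (W + ds) * J - (v₀ + v * ds + e) * J =
        (g - W - v₀ + (ρ - v) * dj - 10 * e) * J + (ρ - v) * (ds - dj) * J + 8 * (e * J) := by
      ring
    have m2 : 2 * l * J ≤ (ρ - v) * (ds - dj) * J := mul_le_mul_of_nonneg_right h2l hJ.le
    rw [e1]
    linarith

/-- The sum of the errors. -/
theorem sum_arith {c κ l J h M ϖ C' E₁ vd : ℝ} (hc : 0 < c) (hκ : 0 < κ) (hl : 0 < l)
    (hϖ : 0 < ϖ) (hC' : 0 < C') (hJ : 0 < J) (hlow : κ * l * J / 4 ≤ h) (hM : 32 * |M + E₁| ≤ c * κ * l * J)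
    (hv : vd ≤ c * κ * ϖ / (64 * C') * (C' * l) * J) {X E₀ : ℝ}
    (hX : X ≤ (3 - c) * h * Real.log 2 + c * κ / (64 * C') * (C' * l) * J)
    (hE₀ : E₀ = M * ϖ) :
    X - 2 * h * Real.log 2 + (vd + E₀) / ϖ + E₁ ≤ (1 - c / 2) * h * Real.log 2 := by
  have hl2b : 1 / 2 < Real.log 2 := by
    have := Real.log_two_gt_d9
    linarith
  have f1 : c * κ / (64 * C') * (C' * l) * J = c * κ * l * J / 64 := by
    field_simp
  have f2 : c * κ * ϖ / (64 * C') * (C' * l) * J = ϖ * (c * κ * l * J / 64) := by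
    field_simp
  rw [f1] at hX
  rw [f2] at hv
  have f3 : (vd + E₀) / ϖ ≤ c * κ * l * J / 64 + M := by
    rw [div_le_iff₀ hϖ, hE₀]
    linarith
  have f4 : c / 2 * (κ * l * J / 4) * (1 / 2) ≤ c / 2 * h * Real.log 2 := by
    have h3 : 0 ≤ c / 2 * (κ * l * J / 4) := by positivity
    calc c / 2 * (κ * l * J / 4) * (1 / 2) ≤ c / 2 * (κ * l * J / 4) * Real.log 2 :=
          mul_le_mul_of_nonneg_left hl2b.le h3
      _ ≤ c / 2 * h * Real.log 2 :=
          mul_le_mul_of_nonneg_right (mul_le_mul_of_nonneg_left hlow (by positivity))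
            (by linarith)
  have f5 : M + E₁ ≤ c * κ * l * J / 32 := by
    have := le_abs_self (M + E₁)
    linarith
  have f6 : (1 - c / 2) * h * Real.log 2 = (3 - c) * h * Real.log 2 - 2 * h * Real.log 2 +
      c / 2 * h * Real.log 2 := by ring
  rw [f6]
  linarith

end arith

section zone

variable {σ : ℝ → Row} {N : ℕ} {u : ℕ → ℚ} {w₀ v₀ v g ρ e : ℝ}

theorem rl_bounds (h : Zon σ N u w₀ v₀ v g ρ e) (h0 : ∀ j ≤ N, 0 ≤ (σ 1).rot (u j)) {J j : ℕ}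
    (hj : j ≤ N) : (g - w₀ + ρ * (u j - w₀) - 20 * e) * J - 1 ≤ (rl u w₀ g ρ e J j : ℝ) ∧
      (rl u w₀ g ρ e J j : ℝ) ≤ (g - w₀ + ρ * (u j - w₀) - 20 * e) * J := by
  have h1 := h.aff (u j) (h.anti hj le_rfl) (h.anti (Nat.zero_le j) hj)
  have h2 := h1.2.2.2.2
  have h3 := abs_le.1 h1.1
  have h4 := h0 j hj
  have he := h.e0
  have hJ : (0 : ℝ) ≤ J := Nat.cast_nonneg J
  refine ⟨?_, Nat.floor_le (mul_nonneg (by linarith) hJ)⟩
  have := Nat.lt_floor_add_one ((g - w₀ + ρ * ((u j : ℝ) - w₀) - 20 * e) * J)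
  unfold rl
  linarith

theorem vl_bounds (h : Zon σ N u w₀ v₀ v g ρ e) (h0 : ∀ j ≤ N, 0 ≤ (σ 1).rot (u j)) {J j : ℕ}
    (hj : j ≤ N) : (v₀ + v * (u j - w₀) - 10 * e) * J - 1 ≤ (vl u w₀ v₀ v e J j : ℝ) ∧
      (vl u w₀ v₀ v e J j : ℝ) ≤ (v₀ + v * (u j - w₀) + e) * J ∧
      (vl u w₀ v₀ v e J j : ℝ) ≤ (σ 1).rot (u 0) * J := by
  have h1 := abs_le.1 (h.aff (u j) (h.anti hj le_rfl) (h.anti (Nat.zero_le j) hj)).1
  have h2 := abs_le.1 (h.aff (u 0) (h.anti (Nat.zero_le N) le_rfl) le_rfl).1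
  have h3 := h0 j hj
  have h4 := h0 0 (Nat.zero_le N)
  have he := h.e0
  have hJ : (0 : ℝ) ≤ J := Nat.cast_nonneg J
  have hvd : v * ((u j : ℝ) - w₀) ≤ v * ((u 0 : ℝ) - w₀) :=
    mul_le_mul_of_nonneg_left (by linarith [h.antiR (Nat.zero_le j) hj]) h.v0
  refine ⟨?_, ?_, ?_⟩
  · have := Nat.lt_floor_add_one ((v₀ + v * ((u j : ℝ) - w₀) - 10 * e) * J)
    unfold vl
    linarith
  · have k1 : (v₀ + v * ((u j : ℝ) - w₀) - 10 * e) * J ≤ (v₀ + v * (u j - w₀) + e) * J :=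
      mul_le_mul_of_nonneg_right (by linarith) hJ
    have k2 : 0 ≤ (v₀ + v * ((u j : ℝ) - w₀) + e) * J := mul_nonneg (by linarith) hJ
    unfold vl
    rcases le_total 0 ((v₀ + v * ((u j : ℝ) - w₀) - 10 * e) * J) with h5 | h5
    · exact (Nat.floor_le h5).trans k1
    · rw [Nat.floor_of_nonpos h5]
      push_cast
      exact k2
  · have k1 : (v₀ + v * ((u j : ℝ) - w₀) - 10 * e) * J ≤ (σ 1).rot (u 0) * J :=
      mul_le_mul_of_nonneg_right (by linarith) hJ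
    have k2 : 0 ≤ (σ 1).rot (u 0) * J := mul_nonneg h4 hJ
    unfold vl
    rcases le_total 0 ((v₀ + v * ((u j : ℝ) - w₀) - 10 * e) * J) with h5 | h5
    · exact (Nat.floor_le h5).trans k1
    · rw [Nat.floor_of_nonpos h5]
      push_cast
      exact k2

/-- The normal level of the top window is above the one of the box. -/
theorem rl_top (h : Zon σ N u w₀ v₀ v g ρ e) (h0 : ∀ j ≤ N, 0 ≤ (σ 1).rot (u j)) {J j X : ℕ}
    {l : ℝ} (hj : j ≤ N) (hX : (X : ℝ) ≤ l * J) (k3 : 1 ≤ l * J)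
    (h2l : 2 * l ≤ (ρ - v) * ((u 0 : ℝ) - u j)) : rl u w₀ g ρ e J j + X ≤ rl u w₀ g ρ e J 0 := by
  have a1 := (rl_bounds h h0 (J := J) hj).2
  have a2 := (rl_bounds h h0 (J := J) (Nat.zero_le N)).1
  have hJ : (0 : ℝ) ≤ J := Nat.cast_nonneg J
  have hd : 0 ≤ (u 0 : ℝ) - u j := by linarith [h.antiR (Nat.zero_le j) hj]
  have h3 : (ρ - v) * ((u 0 : ℝ) - u j) ≤ ρ * ((u 0 : ℝ) - u j) :=
    mul_le_mul_of_nonneg_right (by linarith [h.v0]) hd
  have h4 : (g - w₀ + ρ * (u j - w₀) - 20 * e) * J + 2 * l * J ≤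
      (g - w₀ + ρ * (u 0 - w₀) - 20 * e) * J := by
    rw [← add_mul]
    refine mul_le_mul_of_nonneg_right ?_ hJ
    linarith
  have h5 : ((rl u w₀ g ρ e J j + X : ℕ) : ℝ) < (rl u w₀ g ρ e J 0 : ℝ) + 1 := by
    push_cast
    linarith
  have h6 : rl u w₀ g ρ e J j + X < rl u w₀ g ρ e J 0 + 1 := by exact_mod_cast h5
  omega

/-- The label of the top window has almost natural precision. -/
theorem lab_top (h : Zon σ N u w₀ v₀ v g ρ e) (h0 : ∀ j ≤ N, 0 ≤ (σ 1).rot (u j)) {J : ℕ}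
    {y : ℝ} (hy : 40 * e ≤ y) (hyJ : 8 ≤ y * J) :
    ⌊((σ 1).rot (u 0) - y) * J⌋₊ ≤ vl u w₀ v₀ v e J 0 ∧
      ⌊((σ 1).th (u 0) - y) * J⌋₊ ≤ wl u J 0 + rl u w₀ g ρ e J 0 := by
  have h1 := h.aff (u 0) (h.anti (Nat.zero_le N) le_rfl) le_rfl
  have h2 := abs_le.1 h1.1
  have h3 := abs_le.1 h1.2.1
  have he := h.e0
  have hJ : (0 : ℝ) ≤ J := Nat.cast_nonneg J
  constructor
  · refine Nat.floor_le_floor (mul_le_mul_of_nonneg_right ?_ hJ)
    linarith
  · have a2 := (rl_bounds h h0 (J := J) (Nat.zero_le N)).1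
    have a3 : (u 0 : ℝ) * J - 1 ≤ (wl u J 0 : ℝ) := by
      have := Nat.lt_floor_add_one ((u 0 : ℝ) * J)
      unfold wl
      linarith
    have a4 : ((σ 1).th (u 0) - y) * J ≤ (g + (1 + ρ) * (u 0 - w₀) - 20 * e) * J - 2 := by
      have a5 : (σ 1).th (u 0) - y ≤ g + (1 + ρ) * (u 0 - w₀) - 20 * e - y / 4 := by linarith
      have a6 := mul_le_mul_of_nonneg_right a5 hJ
      have a7 : (g + (1 + ρ) * (u 0 - w₀) - 20 * e - y / 4) * J =
        (g + (1 + ρ) * (u 0 - w₀) - 20 * e) * J - y * J / 4 := by ring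
      linarith
    have a5 : (g + (1 + ρ) * (u 0 - w₀) - 20 * e) * J - 2 =
        ((u 0 : ℝ) * J - 1) + ((g - w₀ + ρ * (u 0 - w₀) - 20 * e) * J - 1) := by ring
    have a6 : ((σ 1).th (u 0) - y) * J ≤ ((wl u J 0 + rl u w₀ g ρ e J 0 : ℕ) : ℝ) := by
      push_cast
      linarith
    exact Nat.floor_le_of_le a6

end zone

/-- The block of rows. -/
theorem blk_low {κ l : ℝ} {J X : ℕ} (hκ : 0 < κ) (hκ1 : κ ≤ 1) (hX : X = ⌊l * J⌋₊)
    (k1 : 4 ≤ κ * l * J) : κ * l * J / 4 ≤ (⌊κ * X⌋₊ : ℕ) := by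
  have h1 := Nat.lt_floor_add_one (l * J)
  rw [← hX] at h1
  have h3 := Nat.lt_floor_add_one (κ * (X : ℝ))
  have h4 : κ * (l * J) ≤ κ * (X + 1) := mul_le_mul_of_nonneg_left h1.le hκ.le
  have h5 : κ * (l * J) = κ * l * J := by ring
  linarith

/-- The rows of a block are near the row `P`. -/
theorem row_near {n x X : ℕ} {P J l CZ C : ℝ} (hx : x ≤ X) (hX : (X : ℝ) ≤ l * J)
    (hJ : 0 ≤ l * J) (hC : CZ + 1 ≤ C) (h : |(n : ℝ) - P * J| ≤ CZ * l * J) :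
    |((n + x : ℕ) : ℝ) - P * J| ≤ C * l * J := by
  have h5 : (x : ℝ) ≤ l * J := (Nat.cast_le.2 hx).trans hX
  have h6 : (0 : ℝ) ≤ x := Nat.cast_nonneg x
  have h8 : (CZ + 1) * (l * J) ≤ C * (l * J) := mul_le_mul_of_nonneg_right hC hJ
  obtain ⟨h3, h4⟩ := abs_le.1 h
  push_cast
  rw [abs_le]
  constructor <;> linarith

/-- The natural label of the top window. -/
theorem nl_top {J : ℕ} {F : Fam 3 J} {B : F.Ω → Prop} {i₀ : Fin 3} {N : ℕ} {w V R : ℕ → ℕ}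
    {Pu PN : ℕ} {τ : Fin 3 → Fin 3} {y : F.Ω → Pln} {z : ℕ → F.Ω → Pln} {al nu k b : F.Ω → ℝ}
    (hm : Fms F B i₀ N w V R Pu PN τ y z al nu k b) : NL F B τ (w 0) (V 0) (w 0 + R 0) y := by
  refine ⟨fun ω hω => hm.frx.inc ω hω, fun ω ω' hω hω' e => ?_, fun ω ω' hω hω' e => ?_⟩
  · obtain ⟨φ, hφ⟩ := hm.frx.yp
    rw [hφ ω hω, hφ ω' hω']
    exact congrArg φ e
  · obtain ⟨ψ, hψ⟩ := hm.frx.ys
    rw [hψ ω hω, hψ ω' hω']
    exact congrArg ψ e

end Pool.S6N
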