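import Pool.Agent.H95.S6.H5F
import Pool.Agent.H97.S6.Zon
import Pool.Agent.H23.S6E.Stmts

/-!
# (H5) in the rising case: one family with its frames
-/

set_option autoImplicit false

namespace Pool.S6N

open Finset Real
open Pool.Agent.H49.Ent Pool.Agent.H32.Dense Pool.STK Pool.KA Pool.KSAT Pool.K2S Pool.PB Pool.KS6
  Pool.S6C Pool.Sel51

section fam3

variable {J : ℕ} {F : Fam 3 J} {B : F.Ω → Prop} {i₀ : Fin 3} {N : ℕ} {w V R : ℕ → ℕ} {Pu PN : ℕ}
  {τ : Fin 3 → Fin 3} {y : F.Ω → Pln} {z : ℕ → F.Ω → Pln} {al nu k b : F.Ω → ℝ}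

/-- The third coefficient of the rounded frame. -/
noncomputable def yt (n Hx : ℕ) (y : Pln) : ℝ := rd n (-y.c + (-y.s - xs Hx y) * y.e)

/-- The constant of the change of the frame. -/
noncomputable def h5K : ℝ :=
  Vd.K2 64 + Real.log 2 + ((3 : ℕ) * Real.log (6 * 64 + 3) + (3 : ℕ) * Real.log (6 * 1 + 3))

/-- **(H5)** for the frames of a family. -/
theorem h5_fms (hm : Fms F B i₀ N w V R Pu PN τ y z al nu k b)
    (hQ : IsLaw (Pool.Agent.H49.Ent.cond F.p B True)) {j Vj Hj X Vx Hx Rx wq q : ℕ} (hj : j ≤ N)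
    (hV : Vj = V j) (hH : Vj + Hj = R j) (hV0 : Vj ≤ V 0) (hR0 : Vj + Hj + X ≤ R 0)
    (hVx : Vj + X ≤ Vx) (hHx : Hj + X ≤ Hx) (hRx : Vj + Hj + X ≤ Rx) (hw : w j ≤ wq)
    (hwJ : wq ≤ J) {ϖ : ℝ} (hϖ : 0 < ϖ) {E : F.Ω → Prop}
    (hE : ϖ ≤ Pe (Pool.Agent.H49.Ent.cond F.p B True) E) {x₁ x₂ : ℕ} (hxy : x₁ ≤ x₂)
    (hy : x₂ ≤ X) :
    CH (Pool.Agent.H49.Ent.cond (Pool.Agent.H49.Ent.cond F.p B True) E True)
        (Uni.dg (q + (Vj + Hj) + wq + x₂) (ps F τ (fun ω => xa Vx (al ω))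
            (fun ω => xs Hx (y ω)) (fun ω => xt Vx Hx Rx (al ω) (k ω) (y ω))))
        (fun ω => (Uni.dg (q + (Vj + Hj) + wq + x₁) (ps F τ (fun ω => xa Vx (al ω))
            (fun ω => xs Hx (y ω)) (fun ω => xt Vx Hx Rx (al ω) (k ω) (y ω))) ω,
          (ctx F τ wq q Vj Hj (fun ω => za Vj (z j ω)) (fun ω => zs Hj (z j ω))
              (fun ω => zt Vj Hj (z j ω)) ω,
            gt F (fun ω => xa Vx (al ω)) (fun ω => xs Hx (y ω))
              (fun ω => xt Vx Hx Rx (al ω) (k ω) (y ω)) ω))) ≤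
      CH (Pool.Agent.H49.Ent.cond (Pool.Agent.H49.Ent.cond F.p B True) E True)
        (F.X (q + (Vj + Hj) + wq + x₂)) (fun ω => (F.X (q + (Vj + Hj) + wq + x₁) ω, F.W ω)) -
        2 * ((x₂ : ℝ) - x₁) * Real.log 2 +
        (F.vdf (Pool.Agent.H49.Ent.cond F.p B True) τ (q + wq) (q + Vj + wq)
          (q + (Vj + Hj) + wq + x₂) (fra y) (frs y) (frt y) (fun ω => ((), (y ω, F.W ω))) +
          h5K) / ϖ + h5C 64 64 := by
  have hA : ∀ ω, 0 < Pool.Agent.H49.Ent.cond F.p B True ω → B ω := fun ω hω =>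
    of_eq_true ((cond_pos_iff F.isLaw.nonneg B True ω).1 hω).2
  have hσb : Function.Bijective τ := Finite.injective_iff_bijective.1 hm.inj
  have hVR : V j ≤ R j := by omega
  have hHj : R j - V j = Hj := by omega
  have hF0 := frg_of hm.frx hm.fre hj (Vx := Vx) (Hx := Hx) (Rx := Rx) hVR (by omega) (by omega)
    (by omega) (by omega) (by omega)
  rw [hHj, ← hV] at hF0
  have hF : Frg F B wq Vj Hj 64 (fun ω => za Vj (z j ω)) (fun ω => zs Hj (z j ω))
      (fun ω => zt Vj Hj (z j ω)) (fun ω => xa Vx (al ω)) (fun ω => xs Hx (y ω))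
      (fun ω => xt Vx Hx Rx (al ω) (k ω) (y ω)) := by
    refine ⟨fun ω ω' e => ?_, hF0.ga, hF0.gs, hF0.gt, hF0.ca, hF0.cs, hF0.ct⟩
    refine hF0.fn ω ω' ?_
    rw [slam_coarse F hw hwJ ω, slam_coarse F hw hwJ ω', e]
  have one : ∀ n : ℕ, (1 : ℝ) / 2 ^ n ≤ 1 := fun n => by
    rw [div_le_one (by positivity)]
    exact one_le_pow₀ (by norm_num)
  have bs0 : ∀ ω, |-(y ω).s - xs Hx (y ω)| ≤ 1 / 2 ^ Hx := by
    intro ω
    rw [abs_sub_comm]
    exact rd_near _ _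
  have pV : (0 : ℝ) < 2 ^ Vj := by positivity
  have pR : (0 : ℝ) < 2 ^ (Vj + Hj + X) := by positivity
  -- the error of the exact frame
  have nt : ∀ ω, B ω → |yt (Vj + Hj + X) Hx (y ω) - xt Vx Hx Rx (al ω) (k ω) (y ω)| ≤
      64 / 2 ^ (Vj + Hj + X) := by
    intro ω hω
    have h1 := rd_near (Vj + Hj + X) (-(y ω).c + (-(y ω).s - xs Hx (y ω)) * (y ω).e)
    have h2 := rd_near Rx (-(y ω).c + k ω + (-(y ω).s - xs Hx (y ω)) * xa Vx (al ω))
    have h3 := inv_pow_mono hRx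
    have h4 := hm.fre.kb ω hω
    have h5 : (8 : ℝ) / 2 ^ R 0 ≤ 8 / 2 ^ (Vj + Hj + X) :=
      div_le_div_of_nonneg_left (by norm_num) pR (pow_le_pow_right₀ (by norm_num) hR0)
    have h6 : |xa Vx (al ω) - (y ω).e| ≤ 9 / 2 ^ Vj := by
      have g1 := rd_near Vx (al ω)
      have g2 := hm.fre.ae ω hω
      have g3 : (1 : ℝ) / 2 ^ Vx ≤ 1 / 2 ^ Vj := inv_pow_mono (by omega)
      have g4 : (8 : ℝ) / 2 ^ V 0 ≤ 8 / 2 ^ Vj :=
        div_le_div_of_nonneg_left (by norm_num) pV (pow_le_pow_right₀ (by norm_num) hV0)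
      have e1 : xa Vx (al ω) - (y ω).e = (rd Vx (al ω) - al ω) + (al ω - (y ω).e) := by
        unfold xa
        ring
      have e2 : (9 : ℝ) / 2 ^ Vj = 1 / 2 ^ Vj + 8 / 2 ^ Vj := by ring
      rw [e1, e2]
      exact (abs_add_le _ _).trans (add_le_add (g1.trans g3) (g2.trans g4))
    have h7 : |(-(y ω).s - xs Hx (y ω)) * (xa Vx (al ω) - (y ω).e)| ≤
        9 / 2 ^ (Vj + Hj + X) := by
      rw [abs_mul]
      have g1 : (1 : ℝ) / 2 ^ Hx ≤ 1 / 2 ^ (Hj + X) := inv_pow_mono hHx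
      calc _ ≤ 1 / 2 ^ (Hj + X) * (9 / 2 ^ Vj) :=
            mul_le_mul ((bs0 ω).trans g1) h6 (abs_nonneg _) (by positivity)
        _ = 9 / 2 ^ (Vj + Hj + X) := by
            rw [show Vj + Hj + X = (Hj + X) + Vj by omega, pow_add _ (Hj + X) Vj]
            field_simp
    have e1 : yt (Vj + Hj + X) Hx (y ω) - xt Vx Hx Rx (al ω) (k ω) (y ω) =
        (rd (Vj + Hj + X) (-(y ω).c + (-(y ω).s - xs Hx (y ω)) * (y ω).e) -
          (-(y ω).c + (-(y ω).s - xs Hx (y ω)) * (y ω).e)) -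
        (rd Rx (-(y ω).c + k ω + (-(y ω).s - xs Hx (y ω)) * xa Vx (al ω)) -
          (-(y ω).c + k ω + (-(y ω).s - xs Hx (y ω)) * xa Vx (al ω))) - k ω -
        (-(y ω).s - xs Hx (y ω)) * (xa Vx (al ω) - (y ω).e) := by
      unfold yt xt
      ring
    have e2 : (64 : ℝ) / 2 ^ (Vj + Hj + X) = 1 / 2 ^ (Vj + Hj + X) + 1 / 2 ^ (Vj + Hj + X) +
      8 / 2 ^ (Vj + Hj + X) + 9 / 2 ^ (Vj + Hj + X) + 45 / 2 ^ (Vj + Hj + X) := by ring
    have e3 : (0 : ℝ) ≤ 45 / 2 ^ (Vj + Hj + X) := by positivity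
    rw [e1, e2]
    have a1 := (abs_le.1 h1)
    have a2 := (abs_le.1 (h2.trans h3))
    have a3 := (abs_le.1 (h4.trans h5))
    have a4 := (abs_le.1 h7)
    rw [abs_le]
    constructor <;> linarith [a1.1, a1.2, a2.1, a2.2, a3.1, a3.2, a4.1, a4.2]
  have na : ∀ ω, B ω → |za Vj (y ω) - za Vj (z j ω)| ≤ 64 / 2 ^ Vj := by
    intro ω hω
    have g1 := rd_near Vj (y ω).e
    have g2 := rd_near Vj (z j ω).e
    have g3 := (hm.frx.nr j hj ω hω).e
    rw [← hV] at g3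
    have e1 : za Vj (y ω) - za Vj (z j ω) = (rd Vj (y ω).e - (y ω).e) +
        ((y ω).e - (z j ω).e) - (rd Vj (z j ω).e - (z j ω).e) := by
      unfold za
      ring
    have e2 : (64 : ℝ) / 2 ^ Vj = 1 / 2 ^ Vj + 8 / 2 ^ Vj + 1 / 2 ^ Vj + 54 / 2 ^ Vj := by ring
    have e3 : (0 : ℝ) ≤ 54 / 2 ^ Vj := by positivity
    rw [e1, e2]
    have a1 := abs_le.1 g1
    have a2 := abs_le.1 g2
    have a3 := abs_le.1 g3
    rw [abs_le]
    constructor <;> linarith [a1.1, a1.2, a2.1, a2.2, a3.1, a3.2]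
  have hbd : ∀ ω, B ω → |za Vj (y ω)| ≤ 64 ∧ |xs Hx (y ω)| ≤ 64 ∧
      |yt (Vj + Hj + X) Hx (y ω)| ≤ 64 := by
    intro ω hω
    have i1 := (hm.frx.inc ω hω).e_le
    have i2 := (hm.frx.inc ω hω).s_le
    have i3 := (hm.frx.inc ω hω).c_le
    have g1 := (rd_near Vj (y ω).e).trans (one _)
    have g2 := (bs0 ω).trans (one _)
    have g3 := (rd_near (Vj + Hj + X) (-(y ω).c + (-(y ω).s - xs Hx (y ω)) * (y ω).e)).trans
      (one _)
    have g4 : |(-(y ω).s - xs Hx (y ω)) * (y ω).e| ≤ 1 * 2 := by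
      rw [abs_mul]
      exact mul_le_mul g2 i1 (abs_nonneg _) zero_le_one
    rw [abs_le] at i1 i2 i3 g1 g2 g3 g4
    refine ⟨?_, ?_, ?_⟩
    · unfold za
      rw [abs_le]
      constructor <;> linarith [i1.1, i1.2, g1.1, g1.2]
    · rw [abs_le]
      constructor <;> linarith [i2.1, i2.2, g2.1, g2.2]
    · unfold yt
      rw [abs_le]
      constructor <;> linarith [i3.1, i3.2, g3.1, g3.2, g4.1, g4.2]
  have key := h5_core (σ := τ) (w := wq) (q := q) (V := Vj) (H := Hj) (X := X) (D := 64) (B := 64)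
    (a'' := fun ω => za Vj (y ω)) (t'' := fun ω => yt (Vj + Hj + X) Hx (y ω)) hσb hF hwJ hQ
    (by norm_num) (by norm_num) (fun ω => rd_grid _ _) (fun ω => rd_grid _ _) na nt hbd hϖ hE
    hxy hy
  refine key.trans ?_
  -- the deficit
  have v1 := Vd.vdf_cond (F := F) (σ := τ) (a := fun ω => za Vj (y ω))
    (s := fun ω => xs Hx (y ω)) (t := fun ω => yt (Vj + Hj + X) Hx (y ω)) (r := q + wq)
    (U := q + Vj + wq) (N := q + (Vj + Hj) + wq + x₂) hQ F.W (fun ω => ((), (y ω, F.W ω)))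
    (fun ω ω' _ _ e => (Prod.ext_iff.mp (Prod.ext_iff.mp e).2).2)
  have v2 := Vd.vdf_chg (F := F) (σ := τ) (a := fun ω => za Vj (y ω))
    (s := fun ω => xs Hx (y ω)) (t := fun ω => yt (Vj + Hj + X) Hx (y ω)) (a' := fra y)
    (s' := frs y) (t' := frt y) (r := q + wq)
    (U := q + Vj + wq) (N := q + (Vj + Hj) + wq + x₂) (B := 64) (D := 1) hQ (by norm_num) le_rfl
    (by omega) (by omega) (by
      intro ω hω
      have i1 := (hm.frx.inc ω (hA ω hω)).e_le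
      have i2 := (hm.frx.inc ω (hA ω hω)).s_le
      have i3 := (hm.frx.inc ω (hA ω hω)).c_le
      unfold fra frs frt
      rw [abs_neg, abs_neg]
      exact ⟨by linarith, by linarith, by linarith⟩) (by
      intro ω hω
      have e1 : (2 : ℝ) ^ (q + wq) / 2 ^ (q + Vj + wq) = 1 / 2 ^ Vj := by
        rw [show q + Vj + wq = (q + wq) + Vj by omega, pow_add _ (q + wq) Vj]
        field_simp
      have e2 : (2 : ℝ) ^ (q + Vj + wq) / 2 ^ (q + (Vj + Hj) + wq + x₂) = 1 / 2 ^ (Hj + x₂) := by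
        rw [show q + (Vj + Hj) + wq + x₂ = (q + Vj + wq) + (Hj + x₂) by omega,
          pow_add _ (q + Vj + wq) (Hj + x₂)]
        field_simp
      have e3 : (2 : ℝ) ^ (q + wq) / 2 ^ (q + (Vj + Hj) + wq + x₂) = 1 / 2 ^ (Vj + Hj + x₂) := by
        rw [show q + (Vj + Hj) + wq + x₂ = (q + wq) + (Vj + Hj + x₂) by omega,
          pow_add _ (q + wq) (Vj + Hj + x₂)]
        field_simp
      refine ⟨?_, ?_, ?_⟩
      · rw [one_mul, e1]
        exact rd_near Vj (y ω).e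
      · rw [one_mul, e2]
        have g1 := bs0 ω
        rw [abs_sub_comm] at g1
        exact g1.trans (inv_pow_mono (by omega))
      · rw [one_mul, e3]
        have g1 := rd_near (Vj + Hj + X) (-(y ω).c + (-(y ω).s - xs Hx (y ω)) * (y ω).e)
        have e4 : yt (Vj + Hj + X) Hx (y ω) - frt y ω + (xs Hx (y ω) - frs y ω) * fra y ω =
            rd (Vj + Hj + X) (-(y ω).c + (-(y ω).s - xs Hx (y ω)) * (y ω).e) -
              (-(y ω).c + (-(y ω).s - xs Hx (y ω)) * (y ω).e) := by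
          unfold yt frt frs fra
          ring
        rw [e4]
        exact g1.trans (inv_pow_mono (by omega)))
    (fun ω => ((), (y ω, F.W ω)))
    (by
      intro ω ω' _ _ e
      have e1 : y ω = y ω' := (Prod.ext_iff.mp (Prod.ext_iff.mp e).2).1
      simp only [e1])
    (by
      intro ω ω' _ _ e
      have e1 : y ω = y ω' := (Prod.ext_iff.mp (Prod.ext_iff.mp e).2).1
      unfold fra frs frt
      simp only [e1])
  have v3 := v1.trans v2
  have v4 : (F.vdf (Pool.Agent.H49.Ent.cond F.p B True) τ (q + wq) (q + Vj + wq)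
      (q + (Vj + Hj) + wq + x₂) (fun ω => za Vj (y ω)) (fun ω => xs Hx (y ω))
      (fun ω => yt (Vj + Hj + X) Hx (y ω)) F.W + (Vd.K2 64 + Real.log 2)) / ϖ ≤
      (F.vdf (Pool.Agent.H49.Ent.cond F.p B True) τ (q + wq) (q + Vj + wq)
          (q + (Vj + Hj) + wq + x₂) (fra y) (frs y) (frt y) (fun ω => ((), (y ω, F.W ω))) +
          h5K) / ϖ := by
    refine div_le_div_of_nonneg_right ?_ hϖ.le
    unfold h5K
    linarith
  linarith

end fam3

end Pool.S6N
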