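import Pool.Agent.H95.S6.H5L

/-!
# (H5) in the rising case: one family

`h5_one`: the rate and LEMMA D at the label of the top window give **(H5)**.
-/

set_option autoImplicit false

namespace Pool.S6N

open Finset Real
open Pool.Agent.H49.Ent Pool.Agent.H32.Dense Pool.STK Pool.KA Pool.KSAT Pool.K2S Pool.PB Pool.KS6
  Pool.S6C Pool.Sel51

section one

variable {σ : ℝ → Row} {N : ℕ} {u : ℕ → ℚ} {w₀ v₀ v g ρ e : ℝ}

/-- All windows of the zone are at most the whole space. -/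
theorem wl_le_J (h : Zon σ N u w₀ v₀ v g ρ e) {J j w : ℕ} (hj1 : 1 ≤ j) (hj : j ≤ N)
    (hw : w < wl u J (j - 1)) : w ≤ J := by
  have h3 : w ≤ wl u J 0 := by
    have := wl_anti h J (Nat.zero_le (j - 1)) (by omega)
    omega
  refine h3.trans ?_
  have h4 : wl u J 0 ≤ ⌊(1 : ℝ) * J⌋₊ := by
    refine Nat.floor_le_floor (mul_le_mul_of_nonneg_right ?_ (Nat.cast_nonneg J))
    exact_mod_cast h.lt1.le
  simpa using h4

/-- **(H5)** for one family. -/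
theorem h5_one (hz : Zon σ N u w₀ v₀ v g ρ e) (h0 : ∀ j ≤ N, 0 ≤ (σ 1).rot (u j))
    {c κ ϖ CZ C' l P ε₁ ε₂ : ℝ} (hc : 0 < c) (hκ : 0 < κ) (hκ1 : κ ≤ 1) (hϖ : 0 < ϖ)
    (hCZ : 0 < CZ) (hl : 0 < l) (hvρ : v < ρ) (hC' : C' = (2 + v + ρ) * CZ + 40) (hel : e ≤ l)
    (top : |(u 0 : ℝ) - w₀| ≤ CZ * l) (bot : |(u N : ℝ) - w₀| ≤ CZ * l)
    (hε₁ : ε₁ = c * κ / (64 * C')) (hε₂ : ε₂ = c * κ * ϖ / (64 * C'))
    {J : ℕ} {F : Fam 3 J} {A B : F.Ω → Prop} (hpA : 0 < Pe F.p A) (hBA : Sub B A)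
    (hB : Pe F.p A ≤ 4 * Pe F.p B) {i₀ : Fin 3} {τ : Fin 3 → Fin 3} {y : F.Ω → Pln}
    {z : ℕ → F.Ω → Pln} {al nu k b : F.Ω → ℝ} {Pu PN : ℕ}
    (hm : Fms F B i₀ N (wl u J) (vl u w₀ v₀ v e J) (rl u w₀ g ρ e J) Pu PN τ y z al nu k b)
    (k1 : 4 ≤ κ * l * J) (k3 : 1 ≤ l * J)
    (k4 : 32 * |h5K / ϖ + h5C 64 64| ≤ c * κ * l * J)
    (h1 : ∀ E : F.Ω → Prop, Sub E A → ϖ / 4 * Pe F.p A ≤ Pe F.p E → ∀ P₁ P₂ : ℕ, P₁ ≤ P₂ →
        |(P₁ : ℝ) - P * J| ≤ C' * l * J → |(P₂ : ℝ) - P * J| ≤ C' * l * J →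
        CH (Pool.Agent.H49.Ent.cond F.p E True) (F.X P₂) (fun ω => (F.X P₁ ω, F.W ω)) ≤
          (3 - c) * ((P₂ : ℝ) - P₁) * Real.log 2 + ε₁ * (C' * l) * J)
    (h2 : ∀ (k' U' N' : ℕ) (q' : ℝ), |q' - (P - g)| ≤ C' * l → ((u 0 : ℝ) + q') * J ≤ k' + 2 →
        ((u 0 : ℝ) + (σ 1).rot (u 0) + q') * J ≤ U' + 2 →
        (N' : ℝ) ≤ ((σ 1).th (u 0) + q') * J + 2 → k' ≤ N' → U' ≤ N' →
        F.vdf (Pool.Agent.H49.Ent.cond F.p B True) τ k' U' N' (fra y) (frs y) (frt y)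
          (fun ω => ((), (y ω, F.W ω))) ≤ ε₂ * (C' * l) * J)
    {Vx Hx Rx j w q X V H : ℕ} (hj1 : 1 ≤ j) (hjN : j ≤ N) (hX : X = ⌊l * J⌋₊)
    (hwl : wl u J j ≤ w) (hwu : w < wl u J (j - 1)) (hV : V = vl u w₀ v₀ v e J j)
    (hVH : V + H = rl u w₀ g ρ e J j) (h2l : 2 * l ≤ (ρ - v) * (u 0 - u j))
    (hVx : V + X ≤ Vx) (hHx : H + X ≤ Hx) (hRx : V + H + X ≤ Rx)
    (hPJ : |((q + (V + H) + w : ℕ) : ℝ) - P * J| ≤ CZ * l * J) {i h : ℕ} (hh : h = ⌊κ * X⌋₊)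
    (hi : (i + 1) * h ≤ X) {E : F.Ω → Prop}
    (hE : ϖ ≤ Pe (Pool.Agent.H49.Ent.cond F.p B True) E) :
    CH (Pool.Agent.H49.Ent.cond (Pool.Agent.H49.Ent.cond F.p B True) E True)
          (Uni.dg (q + (V + H) + w + (i + 1) * h) (ps F τ (fun ω => xa Vx (al ω))
            (fun ω => xs Hx (y ω)) (fun ω => xt Vx Hx Rx (al ω) (k ω) (y ω))))
          (fun ω => (Uni.dg (q + (V + H) + w + i * h) (ps F τ (fun ω => xa Vx (al ω))
            (fun ω => xs Hx (y ω)) (fun ω => xt Vx Hx Rx (al ω) (k ω) (y ω))) ω,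
            (ctx F τ w q V H (fun ω => za V (z j ω)) (fun ω => zs H (z j ω))
              (fun ω => zt V H (z j ω)) ω,
            gt F (fun ω => xa Vx (al ω)) (fun ω => xs Hx (y ω))
              (fun ω => xt Vx Hx Rx (al ω) (k ω) (y ω)) ω))) ≤
          (1 - c / 2) * h * Real.log 2 := by
  have hv0 := hz.v0
  have he0 := hz.e0
  have hC'0 : 0 < C' := by
    rw [hC']
    have : 0 ≤ (2 + v + ρ) * CZ := mul_nonneg (by linarith) hCZ.le
    linarith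
  have hJ0 : (0 : ℝ) < J := by
    by_contra hJ
    have e1 : (J : ℝ) = 0 := le_antisymm (not_lt.1 hJ) (Nat.cast_nonneg J)
    rw [e1] at k3
    linarith
  have hXl : (X : ℝ) ≤ l * J := by
    rw [hX]
    exact Nat.floor_le (by linarith)
  have hBp : 0 < Pe F.p B := by
    have := lt_of_lt_of_le hpA hB
    linarith
  have hQ : IsLaw (Pool.Agent.H49.Ent.cond F.p B True) := isLaw_cond F.isLaw hBp
  have hi' : i * h ≤ (i + 1) * h := Nat.mul_le_mul_right _ (Nat.le_succ i)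
  have hV0 : V ≤ vl u w₀ v₀ v e J 0 := by
    rw [hV]
    exact vl_anti hz J (Nat.zero_le j) hjN
  have hR0 : V + H + X ≤ rl u w₀ g ρ e J 0 := by
    rw [hVH]
    exact rl_top hz h0 hjN hXl k3 h2l
  have key := h5_fms (q := q) (wq := w) (x₁ := i * h) (x₂ := (i + 1) * h) hm hQ hjN hV hVH
    hV0 hR0 hVx hHx hRx hwl (wl_le_J hz hj1 hjN hwu) hϖ hE hi' hi
  refine key.trans ?_
  -- the rate
  have hEE : Pool.Agent.H49.Ent.cond (Pool.Agent.H49.Ent.cond F.p B True) E True =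
      Pool.Agent.H49.Ent.cond F.p (fun ω => B ω ∧ E ω) True := Piece.cond_inter hBp.ne'
  have hPE : ϖ / 4 * Pe F.p A ≤ Pe F.p (fun ω => B ω ∧ E ω) := by
    have h3 : Pe (Pool.Agent.H49.Ent.cond F.p B True) E =
      Pe F.p (fun ω => B ω ∧ E ω) / Pe F.p B := Pe_cond E
    rw [h3, le_div_iff₀ hBp] at hE
    have h4 : ϖ * Pe F.p A ≤ ϖ * (4 * Pe F.p B) := mul_le_mul_of_nonneg_left hB hϖ.le
    linarith
  have hCC : CZ + 1 ≤ C' := by
    rw [hC']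
    have : 0 ≤ (1 + v + ρ) * CZ := mul_nonneg (by linarith) hCZ.le
    linarith
  have r1 := h1 (fun ω => B ω ∧ E ω) (fun ω hω => hBA ω hω.1) hPE (q + (V + H) + w + i * h)
    (q + (V + H) + w + (i + 1) * h) (Nat.add_le_add_left hi' _)
    (row_near (hi'.trans hi) hXl (by linarith) hCC hPJ) (row_near hi hXl (by linarith) hCC hPJ)
  rw [← hEE] at r1
  -- the deficit
  obtain ⟨q', hq'⟩ : ∃ q' : ℝ, q' = ((q : ℝ) + V + w - u 0 * J - (σ 1).rot (u 0) * J) / J :=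
    ⟨_, rfl⟩
  have hq'J : q' * J = (q : ℝ) + V + w - u 0 * J - (σ 1).rot (u 0) * J := by
    rw [hq', div_mul_cancel₀ _ hJ0.ne']
  have eu := hz.aff (u 0) (hz.anti (Nat.zero_le N) le_rfl) le_rfl
  have au := abs_le.1 eu.1
  have at' := abs_le.1 eu.2.1
  have vb := vl_bounds (J := J) hz h0 hjN
  have rb := rl_bounds (J := J) hz h0 hjN
  rw [← hV] at vb
  rw [← hVH] at rb
  push_cast at rb hPJ
  have hdj : |(u j : ℝ) - w₀| ≤ CZ * l := by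
    rw [abs_le]
    have t1 := (abs_le.1 top).2
    have t2 := (abs_le.1 bot).1
    exact ⟨t2.trans (by linarith [hz.antiR hjN le_rfl]),
      le_trans (by linarith [hz.antiR (Nat.zero_le j) hjN]) t1⟩
  obtain ⟨a1, a2, a3, a4⟩ := lv_arith (J := (J : ℝ)) (v := v) (ρ := ρ) (v₀ := v₀) (g := g)
    (W := w₀) (ds := (u 0 : ℝ) - w₀) (dj := (u j : ℝ) - w₀) (e := e) (l := l) (CZ := CZ)
    (V := (V : ℝ)) (H := (H : ℝ)) (rot := (σ 1).rot (u 0)) (th := (σ 1).th (u 0)) (u₀ := (u 0 : ℝ))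
    (q := (q : ℝ)) (w := (w : ℝ)) (P := P) (q' := q') hJ0 hv0 hvρ he0 hel hCZ k3
    (by linarith [au.1]) (by linarith [au.2]) (by linarith [at'.1]) (by ring) top hdj
    (by
      have e1 : (u 0 : ℝ) - w₀ - ((u j : ℝ) - w₀) = (u 0 : ℝ) - u j := by ring
      rw [e1]
      exact h2l) vb.1 vb.2.1 vb.2.2 rb.2 rb.1 hPJ hq'J
  have r2 := h2 (q + w) (q + V + w) (q + (V + H) + w + (i + 1) * h) q' (by rw [hC']; exact a1)
    (by push_cast; linarith) (by push_cast; linarith)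
    (by
      have := a4 (((i + 1) * h : ℕ) : ℝ) ((Nat.cast_le.2 hi).trans hXl)
      push_cast at this ⊢
      linarith) (by omega) (by omega)
  -- the sum
  have hlow := blk_low hκ hκ1 hX k1
  rw [← hh] at hlow
  have hs := sum_arith (c := c) (κ := κ) (l := l) (J := (J : ℝ)) (h := (h : ℝ)) (M := h5K / ϖ)
    (ϖ := ϖ) (C' := C') (E₁ := h5C 64 64) (vd := F.vdf (Pool.Agent.H49.Ent.cond F.p B True) τ (q + w)
      (q + V + w) (q + (V + H) + w + (i + 1) * h) (fra y) (frs y) (frt y)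
          (fun ω => ((), (y ω, F.W ω)))) hc hκ hl hϖ hC'0 hJ0 hlow k4 (by rw [hε₂] at r2; exact r2)
    (X := CH (Pool.Agent.H49.Ent.cond (Pool.Agent.H49.Ent.cond F.p B True) E True)
        (F.X (q + (V + H) + w + (i + 1) * h)) (fun ω => (F.X (q + (V + H) + w + i * h) ω, F.W ω)))
    (E₀ := h5K) (by
      rw [hε₁] at r1
      have e1 : ((q + (V + H) + w + (i + 1) * h : ℕ) : ℝ) - ((q + (V + H) + w + i * h : ℕ) : ℝ) =
          h := by
        push_cast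
        ring
      rw [e1] at r1
      exact r1) (div_mul_cancel₀ _ hϖ.ne').symm
  have e1 : (((i + 1) * h : ℕ) : ℝ) - ((i * h : ℕ) : ℝ) = h := by
    push_cast
    ring
  rw [e1]
  exact hs

end one

end Pool.S6N
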